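import Pool.Agent.Zk22.QB.Orth

set_option autoImplicit false

/-! # Diagonalisation of the block of a symmetric matrix -/

namespace Pool.Agent.Zk22.QC

open Pool.Agent.Zk22.QB

lemma det_inst {n : Type} (f1 f2 : Fintype n) (d1 d2 : DecidableEq n)
    (M : Matrix n n (PowerSeries ℂ)) :
    @Matrix.det n d1 f1 (PowerSeries ℂ) _ M = @Matrix.det n d2 f2 (PowerSeries ℂ) _ M := by
  have h1 : f1 = f2 := Subsingleton.elim _ _
  have h2 : d1 = d2 := Subsingleton.elim _ _
  subst h1
  subst h2
  rfl

/-- a symmetric matrix supported on `B × B` is diagonalised by a matrix which is the identity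
outside `B × B` -/
theorem diagB {m : ℕ} (B : Finset (Fin m)) (A : Matrix (Fin m) (Fin m) (PowerSeries ℂ))
    (hA : A.IsSymm) (hAB : ∀ i, i ∉ B → ∀ l, A i l = 0) :
    ∃ (P : Matrix (Fin m) (Fin m) (PowerSeries ℂ)) (a : Fin m → PowerSeries ℂ), IsUnit P.det ∧
      (∀ j k, ∑ i, ∑ l, P i j * A i l * P l k = if j = k then a j else 0) ∧
      (∀ i, i ∉ B → ∀ j, P i j = if i = j then 1 else 0) ∧
      (∀ j, j ∉ B → ∀ i, P i j = if i = j then 1 else 0) ∧ (∀ j, j ∉ B → a j = 0) := by
  classical
  set e := B.equivFin with he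
  obtain ⟨P', a', hP', hd⟩ := diag (A.submatrix (fun i => (e.symm i : Fin m))
    (fun i => (e.symm i : Fin m))) (by
      refine Matrix.IsSymm.ext fun i j => ?_
      exact hA.apply _ _)
  set P : Matrix (Fin m) (Fin m) (PowerSeries ℂ) := Matrix.of fun i j =>
    if hi : i ∈ B then (if hj : j ∈ B then P' (e ⟨i, hi⟩) (e ⟨j, hj⟩) else 0)
      else if i = j then 1 else 0 with hP
  have hPB : ∀ (i j : Fin m) (hi : i ∈ B) (hj : j ∈ B), P i j = P' (e ⟨i, hi⟩) (e ⟨j, hj⟩) := by
    intro i j hi hj
    rw [hP, Matrix.of_apply, dif_pos hi, dif_pos hj]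
  have hP1 : ∀ i, i ∉ B → ∀ j, P i j = if i = j then 1 else 0 := by
    intro i hi j
    rw [hP, Matrix.of_apply, dif_neg hi]
  have hP2 : ∀ j, j ∉ B → ∀ i, P i j = if i = j then 1 else 0 := by
    intro j hj i
    by_cases hi : i ∈ B
    · rw [hP, Matrix.of_apply, dif_pos hi, dif_neg hj, if_neg]
      rintro rfl
      exact hj hi
    · exact hP1 i hi j
  refine ⟨P, fun j => if hj : j ∈ B then a' (e ⟨j, hj⟩) else 0, ?_, ?_, hP1, hP2, ?_⟩
  · have h1 := Matrix.twoBlockTriangular_det P (fun i => i ∈ B) (by
      intro i hi j hj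
      rw [hP1 i hi, if_neg]
      rintro rfl
      exact hi hj)
    rw [h1]
    have h2 : Matrix.toSquareBlockProp P (fun i => i ∈ B) = P'.submatrix e e := by
      funext i j
      rw [Matrix.toSquareBlockProp_def, Matrix.of_apply, Matrix.submatrix_apply]
      exact hPB _ _ i.2 j.2
    have h4 : (Matrix.toSquareBlockProp P (fun i => i ∈ B)).det = P'.det := by
      rw [h2]
      exact (det_inst _ _ _ _ _).trans (Matrix.det_submatrix_equiv_self e P')
    have h3 : Matrix.toSquareBlockProp P (fun i => ¬ i ∈ B) = 1 := by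
      funext i j
      rw [Matrix.toSquareBlockProp_def, Matrix.of_apply, hP1 _ i.2, Matrix.one_apply]
      simp only [Subtype.ext_iff]
    rw [h3, Matrix.det_one, mul_one, (det_inst _ _ _ _ _).trans h4]
    exact hP'
  · intro j k
    simp only
    by_cases hj : j ∈ B
    · by_cases hk : k ∈ B
      · have h1 : ∑ i, ∑ l, P i j * A i l * P l k = ∑ i : B, ∑ l : B, P i j * A i l * P l k := by
          rw [Finset.sum_coe_sort B (fun i => ∑ l : B, P i j * A i l * P l k),
            ← Finset.sum_subset (Finset.subset_univ B)]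
          · refine Finset.sum_congr rfl fun i _ => ?_
            rw [Finset.sum_coe_sort B (fun l => P i j * A i l * P l k),
              ← Finset.sum_subset (Finset.subset_univ B)]
            intro l _ hl
            rw [hP1 l hl, if_neg, mul_zero]
            rintro rfl
            exact hl hk
          · intro i _ hi
            refine Finset.sum_eq_zero fun l _ => ?_
            rw [hAB i hi, mul_zero, zero_mul]
        have h2 : ∑ i : B, ∑ l : B, P i j * A i l * P l k =
            ∑ i : Fin B.card, ∑ l : Fin B.card, P' i (e ⟨j, hj⟩) *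
              (A.submatrix (fun i => (e.symm i : Fin m)) (fun i => (e.symm i : Fin m))) i l *
              P' l (e ⟨k, hk⟩) := by
          rw [← Equiv.sum_comp e]
          refine Finset.sum_congr rfl fun i _ => ?_
          rw [← Equiv.sum_comp e]
          refine Finset.sum_congr rfl fun l _ => ?_
          rw [hPB i j i.2 hj, hPB l k l.2 hk, Matrix.submatrix_apply, Equiv.symm_apply_apply,
            Equiv.symm_apply_apply]
        rw [h1, h2, hd, dif_pos hj]
        simp only [EmbeddingLike.apply_eq_iff_eq, Subtype.mk.injEq]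
      · rw [if_neg (fun h : j = k => hk (h ▸ hj))]
        refine Finset.sum_eq_zero fun i _ => Finset.sum_eq_zero fun l _ => ?_
        rw [hP2 k hk]
        by_cases hlk : l = k
        · rw [if_pos hlk, hlk, ← hA.apply, hAB k hk, mul_zero, zero_mul]
        · rw [if_neg hlk, mul_zero]
    · rw [dif_neg hj, ite_self]
      refine Finset.sum_eq_zero fun i _ => Finset.sum_eq_zero fun l _ => ?_
      rw [hP2 j hj]
      by_cases hij : i = j
      · rw [if_pos hij, hij, hAB j hj, mul_zero, zero_mul]
      · rw [if_neg hij, zero_mul, zero_mul]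
  · intro j hj
    simp only
    rw [dif_neg hj]

end Pool.Agent.Zk22.QC
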