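import Pool.Agent.Zk22.QC.Poly2

set_option autoImplicit false
set_option linter.unusedSectionVars false
set_option linter.unusedVariables false

/-! # Polynomials which are homogeneous in two of the variables -/

namespace Pool.Agent.Zk22.QC

open MvPowerSeries
open Pool.Agent.Zk22.QB
open Pool.Agent.Y229.GL (IsCoord)
open Pool.Agent.Y229.PS (pd_rename pd_rename_ne)
open Pool.Agent.W425.SM (sparse)

section ext
variable {n : ℕ} (i0 : Fin (n + 1))

lemma lin_rename (w : MvPowerSeries (Fin n) ℂ) (j : Fin n) :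
    lin (i0.succAbove j) (rename i0.succAbove w) = lin j w := by
  rw [lin_eq, pd_rename Fin.succAbove_right_injective, constantCoeff_rename, ← lin_eq]

lemma lin_rename_ne (w : MvPowerSeries (Fin n) ℂ) : lin i0 (rename i0.succAbove w) = 0 := by
  rw [lin_eq, pd_rename_ne (fun i => Fin.succAbove_ne i0 i), map_zero]

/-- a further variable -/
theorem Rl_ext {f g : MvPowerSeries (Fin n) ℂ} (h : Rl f g) :
    Rl (rename i0.succAbove f) (rename i0.succAbove g) := by
  classical
  obtain ⟨φ, u, hφ, hφ0, hu, e⟩ := h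
  set φ' : Fin (n + 1) → MvPowerSeries (Fin (n + 1)) ℂ :=
    Fin.insertNth i0 (X i0) (fun l => rename i0.succAbove (φ l)) with hφ'
  have h1 : φ' i0 = X i0 := by rw [hφ', Fin.insertNth_apply_same]
  have h2 : ∀ l, φ' (i0.succAbove l) = rename i0.succAbove (φ l) := fun l => by
    rw [hφ', Fin.insertNth_apply_succAbove]
  have hc : ∀ i, constantCoeff (φ' i) = 0 := by
    intro i
    rcases Fin.eq_self_or_eq_succAbove i0 i with rfl | ⟨l, rfl⟩
    · rw [h1, constantCoeff_X]
    · rw [h2, constantCoeff_rename, hφ0]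
  refine ⟨φ', rename i0.succAbove u, ?_, hc, hu.map _, ?_⟩
  · rw [isCoord_iff, Matrix.det_succ_row _ i0, Finset.sum_eq_single i0]
    · have e1 : ((Matrix.of fun i j => lin j (φ' i)).submatrix i0.succAbove i0.succAbove) =
          Matrix.of fun i j => lin j (φ i) := by
        funext i j
        rw [Matrix.submatrix_apply, Matrix.of_apply, Matrix.of_apply, h2, lin_rename]
      have e2 : (Matrix.of fun i j => lin j (φ' i)) i0 i0 = 1 := by
        rw [Matrix.of_apply, h1, lin_X, if_pos rfl]
      rw [e1, e2, mul_one, ← two_mul, pow_mul, neg_one_sq, one_pow, one_mul]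
      exact hφ
    · intro j _ hj
      have e2 : (Matrix.of fun i j => lin j (φ' i)) i0 j = 0 := by
        rw [Matrix.of_apply, h1, lin_X, if_neg (Ne.symm hj)]
      rw [e2, mul_zero, zero_mul]
    · exact fun h => absurd (Finset.mem_univ _) h
  · have e1 : subst φ' (rename i0.succAbove f) = rename i0.succAbove (subst φ f) := by
      rw [rename_eq_subst, rename_eq_subst,
        subst_comp_subst_apply (HasSubst.X_comp _) (hasSubst_of_constantCoeff_zero hc),
        subst_comp_subst_apply (hasSubst_of_constantCoeff_zero hφ0) (HasSubst.X_comp _)]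
      congr 1
      funext i
      rw [Function.comp_apply, subst_X (hasSubst_of_constantCoeff_zero hc), h2, rename_eq_subst]
    rw [e1, e, map_mul]

end ext

section pencil
variable {n : ℕ} (i0 : Fin (n + 2))

/-- the polynomial with the variable `i0` equal to one -/
noncomputable def deh (F : MvPolynomial (Fin (n + 2)) ℂ) : MvPolynomial (Fin (n + 1)) ℂ :=
  MvPolynomial.aeval (Fin.insertNth (α := fun _ => MvPolynomial (Fin (n + 1)) ℂ) i0 1
    (fun l => MvPolynomial.X l)) F

variable (p : Fin (n + 2) → ℂ)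

/-- the point of the chart -/
noncomputable def chartPt : Fin (n + 1) → ℂ :=
  fun l => if l = 0 then p (i0.succAbove 0) / p i0 else p (i0.succAbove l)

/-- the change of coordinates -/
noncomputable def Th : Fin (n + 2) → MvPolynomial (Fin (n + 2)) ℂ :=
  Fin.insertNth (α := fun _ => MvPolynomial (Fin (n + 2)) ℂ) i0
    (MvPolynomial.C (p i0) + MvPolynomial.X i0)
    (fun l => if l = 0 then (MvPolynomial.C (p i0) + MvPolynomial.X i0) *
      (MvPolynomial.C (chartPt i0 p 0) + MvPolynomial.X (i0.succAbove 0)) else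
      MvPolynomial.C (p (i0.succAbove l)) + MvPolynomial.X (i0.succAbove l))

lemma Th_same : Th i0 p i0 = MvPolynomial.C (p i0) + MvPolynomial.X i0 := by
  unfold Th
  rw [Fin.insertNth_apply_same]

lemma Th_zero : Th i0 p (i0.succAbove 0) = (MvPolynomial.C (p i0) + MvPolynomial.X i0) *
    (MvPolynomial.C (chartPt i0 p 0) + MvPolynomial.X (i0.succAbove 0)) := by
  unfold Th
  rw [Fin.insertNth_apply_succAbove, if_pos rfl]

lemma Th_succ (l : Fin (n + 1)) (hl : l ≠ 0) : Th i0 p (i0.succAbove l) =
    MvPolynomial.C (p (i0.succAbove l)) + MvPolynomial.X (i0.succAbove l) := by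
  unfold Th
  rw [Fin.insertNth_apply_succAbove, if_neg hl]

/-- the identity -/
lemma Th_eq {K : ℕ} (F : MvPolynomial (Fin (n + 2)) ℂ)
    (hF : ∀ d ∈ F.support, d i0 + d (i0.succAbove 0) = K) :
    MvPolynomial.aeval (Th i0 p) F = (MvPolynomial.C (p i0) + MvPolynomial.X i0) ^ K *
      MvPolynomial.rename i0.succAbove (translate (chartPt i0 p) (deh i0 F)) := by
  classical
  set Ψ : MvPolynomial (Fin (n + 2)) ℂ →ₐ[ℂ] MvPolynomial (Fin (n + 2)) ℂ :=
    (MvPolynomial.rename i0.succAbove).comp
      ((MvPolynomial.aeval (fun i => MvPolynomial.C (chartPt i0 p i) + MvPolynomial.X i)).comp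
        (MvPolynomial.aeval (Fin.insertNth (α := fun _ => MvPolynomial (Fin (n + 1)) ℂ) i0 1
          (fun l => MvPolynomial.X l)))) with hΨ
  have h0 : MvPolynomial.rename i0.succAbove (translate (chartPt i0 p) (deh i0 F)) = Ψ F := rfl
  have hΨ1 : Ψ (MvPolynomial.X i0) = 1 := by
    rw [hΨ, AlgHom.comp_apply, AlgHom.comp_apply, MvPolynomial.aeval_X, Fin.insertNth_apply_same,
      map_one, map_one]
  have hΨ2 : ∀ l, Ψ (MvPolynomial.X (i0.succAbove l)) = MvPolynomial.C (chartPt i0 p l) +
      MvPolynomial.X (i0.succAbove l) := by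
    intro l
    rw [hΨ, AlgHom.comp_apply, AlgHom.comp_apply, MvPolynomial.aeval_X,
      Fin.insertNth_apply_succAbove, MvPolynomial.aeval_X, map_add, MvPolynomial.rename_C,
      MvPolynomial.rename_X]
  rw [h0]
  conv_lhs => rw [F.as_sum]
  conv_rhs => rw [F.as_sum]
  rw [map_sum, map_sum, Finset.mul_sum]
  refine Finset.sum_congr rfl fun d hd => ?_
  have hm : (MvPolynomial.monomial d (MvPolynomial.coeff d F) : MvPolynomial (Fin (n + 2)) ℂ) =
      MvPolynomial.C (MvPolynomial.coeff d F) * ∏ i, MvPolynomial.X i ^ d i := by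
    rw [MvPolynomial.monomial_eq, Finsupp.prod_fintype _ _ (fun i => pow_zero _)]
  have hC : ∀ Φ : MvPolynomial (Fin (n + 2)) ℂ →ₐ[ℂ] MvPolynomial (Fin (n + 2)) ℂ, ∀ c : ℂ,
      Φ (MvPolynomial.C c) = MvPolynomial.C c := fun Φ c => Φ.commutes c
  rw [hm, map_mul, map_mul, map_prod, map_prod, hC, hC, Fin.prod_univ_succAbove _ i0,
    Fin.prod_univ_succAbove _ i0, Fin.prod_univ_succ, Fin.prod_univ_succ]
  simp only [map_pow, MvPolynomial.aeval_X, hΨ1, hΨ2, Th_same, Th_zero]
  have h1 : ∀ l : Fin n, Th i0 p (i0.succAbove l.succ) ^ d (i0.succAbove l.succ) =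
      (MvPolynomial.C (chartPt i0 p l.succ) + MvPolynomial.X (i0.succAbove l.succ)) ^
        d (i0.succAbove l.succ) := by
    intro l
    rw [Th_succ i0 p _ (Fin.succ_ne_zero l)]
    congr 2
  rw [Finset.prod_congr rfl fun l _ => h1 l, ← hF d hd, one_pow, one_mul, mul_pow, pow_add]
  ring

/-- **The germs at the points off the axis.** -/
theorem Rl_chart {K : ℕ} (F : MvPolynomial (Fin (n + 2)) ℂ)
    (hF : ∀ d ∈ F.support, d i0 + d (i0.succAbove 0) = K) (hp : p i0 ≠ 0) :
    Rl ((translate p F : MvPolynomial (Fin (n + 2)) ℂ) : MvPowerSeries (Fin (n + 2)) ℂ)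
      (rename i0.succAbove ((translate (chartPt i0 p) (deh i0 F) :
        MvPolynomial (Fin (n + 1)) ℂ) : MvPowerSeries (Fin (n + 1)) ℂ)) := by
  classical
  set φ : Fin (n + 2) → MvPowerSeries (Fin (n + 2)) ℂ := fun i =>
    ((Th i0 p i - MvPolynomial.C (p i) : MvPolynomial (Fin (n + 2)) ℂ) :
      MvPowerSeries (Fin (n + 2)) ℂ) with hφ
  have h1 : φ i0 = X i0 := by
    rw [hφ]
    simp only
    rw [Th_same, add_sub_cancel_left, MvPolynomial.coe_X]
  have h2 : φ (i0.succAbove 0) = (C (p i0) + X i0) * (C (chartPt i0 p 0) + X (i0.succAbove 0)) -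
      C (p (i0.succAbove 0)) := by
    rw [hφ]
    simp only
    rw [Th_zero]
    have h := map_sub (MvPolynomial.coeToMvPowerSeries.ringHom (σ := Fin (n + 2)) (R := ℂ))
      ((MvPolynomial.C (p i0) + MvPolynomial.X i0) *
        (MvPolynomial.C (chartPt i0 p 0) + MvPolynomial.X (i0.succAbove 0)))
      (MvPolynomial.C (p (i0.succAbove 0)))
    rw [map_mul, map_add, map_add] at h
    simp only [MvPolynomial.coeToMvPowerSeries.ringHom_apply, MvPolynomial.coe_C,
      MvPolynomial.coe_X] at h
    exact h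
  have h3 : ∀ l : Fin n, φ (i0.succAbove l.succ) = X (i0.succAbove l.succ) := by
    intro l
    rw [hφ]
    simp only
    rw [Th_succ i0 p _ (Fin.succ_ne_zero l), add_sub_cancel_left, MvPolynomial.coe_X]
  have hcp : p i0 * chartPt i0 p 0 = p (i0.succAbove 0) := by
    unfold chartPt
    rw [if_pos rfl, mul_div_cancel₀ _ hp]
  have hlC : ∀ (j : Fin (n + 2)) (c : ℂ), lin j (C c : MvPowerSeries (Fin (n + 2)) ℂ) = 0 := by
    intro j c
    rw [lin_eq, pderiv_C, map_zero]
  have hc : ∀ i, constantCoeff (φ i) = 0 := by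
    intro i
    rcases Fin.eq_self_or_eq_succAbove i0 i with rfl | ⟨l, rfl⟩
    · rw [h1, constantCoeff_X]
    · refine Fin.cases ?_ (fun l => ?_) l
      · rw [h2, map_sub, map_mul, map_add, map_add, constantCoeff_C, constantCoeff_X,
          constantCoeff_C, constantCoeff_X, constantCoeff_C, add_zero, add_zero, hcp, sub_self]
      · rw [h3, constantCoeff_X]
  refine ⟨φ, (C (p i0) + X i0) ^ K, ?_, hc, ?_, ?_⟩
  · rw [isCoord_iff]
    refine det_ne_of_rank _ (fun i => if i = i0.succAbove 0 then 1 else 0) (fun i => ?_)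
      (fun i j hij hr => ?_)
    · rw [Matrix.of_apply]
      rcases Fin.eq_self_or_eq_succAbove i0 i with rfl | ⟨l, rfl⟩
      · rw [h1, lin_X, if_pos rfl]
        exact one_ne_zero
      · refine Fin.cases ?_ (fun l => ?_) l
        · rw [h2, lin_sub, lin_mul, lin_add, lin_add, hlC, hlC, hlC, lin_X, lin_X, if_pos rfl,
            if_neg (Ne.symm (Fin.succAbove_ne i0 0)), map_add, constantCoeff_C, constantCoeff_X]
          simpa using hp
        · rw [h3, lin_X, if_pos rfl]
          exact one_ne_zero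
    · rw [Matrix.of_apply]
      rcases Fin.eq_self_or_eq_succAbove i0 i with rfl | ⟨l, rfl⟩
      · rw [h1, lin_X, if_neg hij]
      · revert hij hr
        refine Fin.cases ?_ (fun l => ?_) l
        · intro hij hr
          exfalso
          rw [if_pos rfl, if_neg (Ne.symm hij)] at hr
          omega
        · intro hij _
          rw [h3, lin_X, if_neg hij]
  · refine (isUnit_of_const ?_).pow K
    rw [map_add, constantCoeff_C, constantCoeff_X, add_zero]
    exact hp
  · have e1 : subst φ ((translate p F : MvPolynomial (Fin (n + 2)) ℂ) :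
        MvPowerSeries (Fin (n + 2)) ℂ) = ((MvPolynomial.aeval (Th i0 p) F :
          MvPolynomial (Fin (n + 2)) ℂ) : MvPowerSeries (Fin (n + 2)) ℂ) := by
      rw [subst_coe, ← coe_aeval]
      unfold Pool.Agent.Zk22.QB.translate
      have h4 := MvPolynomial.comp_aeval_apply (R := ℂ)
        (f := fun i => (MvPolynomial.C (p i) + MvPolynomial.X i : MvPolynomial (Fin (n + 2)) ℂ))
        (φ := (MvPolynomial.aeval φ : MvPolynomial (Fin (n + 2)) ℂ →ₐ[ℂ]
          MvPowerSeries (Fin (n + 2)) ℂ)) F
      rw [h4]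
      congr 2
      funext i
      rw [map_add, MvPolynomial.aeval_X]
      have h5 : (MvPolynomial.aeval φ (MvPolynomial.C (p i)) : MvPowerSeries (Fin (n + 2)) ℂ) =
          C (p i) := (MvPolynomial.aeval φ).commutes (p i)
      rw [h5, hφ]
      simp only
      have h6 := map_sub (MvPolynomial.coeToMvPowerSeries.ringHom (σ := Fin (n + 2)) (R := ℂ))
        (Th i0 p i) (MvPolynomial.C (p i))
      simp only [MvPolynomial.coeToMvPowerSeries.ringHom_apply, MvPolynomial.coe_C] at h6
      rw [h6]
      ring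
    rw [e1, Th_eq i0 p F hF, MvPolynomial.coe_mul, MvPolynomial.coe_pow, MvPolynomial.coe_add,
      MvPolynomial.coe_C, MvPolynomial.coe_X, rename_coe]

end pencil

end Pool.Agent.Zk22.QC
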