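import Pool.Agent.Zk22.QC.Pencil

set_option autoImplicit false
set_option linter.unusedSectionVars false
set_option linter.unusedVariables false

/-! # Germs of pencils of quadrics with separated terms, and their zeta functions -/

namespace Pool.Agent.Zk22.QC

open MvPowerSeries
open Pool.Agent.Zk22.QB
open Pool.Agent.H628R4.TP (IsBFunction)
open Pool.Agent.W425.SM (sparse SmoothFan Principal)
open Pool.Agent.W425.SL (topZetaSparseLocal)

section deh
variable {n : ℕ} (i0 : Fin (n + 2))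

lemma deh_X_same : deh i0 (MvPolynomial.X i0) = 1 := by
  unfold deh
  rw [MvPolynomial.aeval_X, Fin.insertNth_apply_same]

lemma deh_X (l : Fin (n + 1)) : deh i0 (MvPolynomial.X (i0.succAbove l)) = MvPolynomial.X l := by
  unfold deh
  rw [MvPolynomial.aeval_X, Fin.insertNth_apply_succAbove]

lemma deh_support (F : MvPolynomial (Fin (n + 2)) ℂ) (d : Fin (n + 1) →₀ ℕ)
    (hd : d ∈ (deh i0 F).support) : ∃ e ∈ F.support, ∀ l, d l = e (i0.succAbove l) := by
  classical
  rw [MvPolynomial.mem_support_iff] at hd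
  have h1 : deh i0 F = ∑ e ∈ F.support, MvPolynomial.monomial
      (Finsupp.equivFunOnFinite.symm (fun l => e (i0.succAbove l))) (MvPolynomial.coeff e F) := by
    unfold deh
    rw [MvPolynomial.aeval_def, MvPolynomial.eval₂_eq']
    refine Finset.sum_congr rfl fun e _ => ?_
    rw [Fin.prod_univ_succAbove _ i0, Fin.insertNth_apply_same, one_pow, one_mul,
      MvPolynomial.monomial_eq, Finsupp.prod_fintype _ _ (fun i => pow_zero _)]
    congr 1
    refine Finset.prod_congr rfl fun l _ => ?_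
    rw [Fin.insertNth_apply_succAbove]
    rfl
  rw [h1, MvPolynomial.coeff_sum] at hd
  obtain ⟨e, he, h2⟩ := Finset.exists_ne_zero_of_sum_ne_zero hd
  refine ⟨e, he, fun l => ?_⟩
  rw [MvPolynomial.coeff_monomial] at h2
  have h3 : Finsupp.equivFunOnFinite.symm (fun l => e (i0.succAbove l)) = d := by
    by_contra h
    exact h2 (if_neg h)
  rw [← h3]
  rfl

end deh

variable {m : ℕ} (B : Finset (Fin m))

/-- the polynomial `Q(x₀, x₁; y) + ∑_j A_j(x₀, x₁) g_j(y_j)`, the sum over the `j` outside `B` -/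
noncomputable def pencilPoly (Q : MvPolynomial (Fin (m + 2)) ℂ) (A : Fin m → MvPolynomial (Fin 2) ℂ)
    (g : Fin m → Polynomial ℂ) : MvPolynomial (Fin (m + 2)) ℂ :=
  Q + ∑ j ∈ Bᶜ, MvPolynomial.aeval ![MvPolynomial.X 0, MvPolynomial.X 1] (A j) *
    Polynomial.aeval (MvPolynomial.X j.succ.succ) (g j)

lemma deh_pencil (i0 : Fin (m + 2)) (c : Fin 2 → Polynomial ℂ)
    (hy : ∀ l : Fin m, i0.succAbove l.succ = l.succ.succ)
    (hc0 : deh i0 (MvPolynomial.X 0) = Polynomial.aeval (MvPolynomial.X 0) (c 0))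
    (hc1 : deh i0 (MvPolynomial.X 1) = Polynomial.aeval (MvPolynomial.X 0) (c 1))
    (Q : MvPolynomial (Fin (m + 2)) ℂ) (A : Fin m → MvPolynomial (Fin 2) ℂ)
    (g : Fin m → Polynomial ℂ) :
    deh i0 (pencilPoly B Q A g) = combPoly B (deh i0 Q) (fun j => MvPolynomial.aeval c (A j)) g := by
  have h1 : deh i0 (pencilPoly B Q A g) = deh i0 Q + ∑ j ∈ Bᶜ,
      deh i0 (MvPolynomial.aeval ![MvPolynomial.X 0, MvPolynomial.X 1] (A j)) *
      deh i0 (Polynomial.aeval (MvPolynomial.X j.succ.succ) (g j)) := by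
    unfold pencilPoly deh
    rw [map_add, map_sum]
    congr 1
    exact Finset.sum_congr rfl fun j _ => map_mul _ _ _
  rw [h1]
  unfold combPoly
  congr 1
  refine Finset.sum_congr rfl fun j _ => ?_
  have h2 : deh i0 (Polynomial.aeval (MvPolynomial.X j.succ.succ) (g j)) =
      Polynomial.aeval (MvPolynomial.X j.succ) (g j) := by
    have h3 := deh_X i0 j.succ
    rw [hy] at h3
    unfold deh at h3 ⊢
    rw [← Polynomial.aeval_algHom_apply, h3]
  have h4 : deh i0 (MvPolynomial.aeval ![MvPolynomial.X 0, MvPolynomial.X 1] (A j)) =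
      Polynomial.aeval (MvPolynomial.X 0) (MvPolynomial.aeval c (A j)) := by
    have e1 := MvPolynomial.comp_aeval_apply (R := ℂ)
      (f := (![MvPolynomial.X 0, MvPolynomial.X 1] : Fin 2 → MvPolynomial (Fin (m + 2)) ℂ))
      (φ := (MvPolynomial.aeval (Fin.insertNth (α := fun _ => MvPolynomial (Fin (m + 1)) ℂ) i0 1
        (fun l => MvPolynomial.X l)) : MvPolynomial (Fin (m + 2)) ℂ →ₐ[ℂ]
          MvPolynomial (Fin (m + 1)) ℂ)) (A j)
    have e2 := MvPolynomial.comp_aeval_apply (R := ℂ) (f := c)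
      (φ := (Polynomial.aeval (MvPolynomial.X 0) : Polynomial ℂ →ₐ[ℂ]
          MvPolynomial (Fin (m + 1)) ℂ)) (A j)
    unfold deh at hc0 hc1 ⊢
    rw [e1, e2]
    congr 2
    funext k
    fin_cases k
    · exact hc0
    · exact hc1
  rw [h2, h4]

theorem becomes_pencil_aux {K : ℕ} (i0 : Fin (m + 2)) (c : Fin 2 → Polynomial ℂ)
    (hy : ∀ l : Fin m, i0.succAbove l.succ = l.succ.succ)
    (hc0 : deh i0 (MvPolynomial.X 0) = Polynomial.aeval (MvPolynomial.X 0) (c 0))
    (hc1 : deh i0 (MvPolynomial.X 1) = Polynomial.aeval (MvPolynomial.X 0) (c 1))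
    (Q : MvPolynomial (Fin (m + 2)) ℂ) (A : Fin m → MvPolynomial (Fin 2) ℂ)
    (g : Fin m → Polynomial ℂ)
    (hF : ∀ d ∈ (pencilPoly B Q A g).support, d i0 + d (i0.succAbove 0) = K)
    (hQ : ∀ d ∈ Q.support, ∑ i : Fin m, d i.succ.succ ≤ 2 ∧ ∀ i, i ∉ B → d i.succ.succ = 0)
    (hF0 : pencilPoly B Q A g ≠ 0) (p : Fin (m + 2) → ℂ) (hpi : p i0 ≠ 0)
    (hp : MvPolynomial.eval p (pencilPoly B Q A g) = 0) :
    ∃ (S : Finset (Fin m)) (n k : Fin m → ℕ) (E : MvPolynomial (Fin (m + 1)) ℂ),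
      (∀ i, k i ≠ 0) ∧ IsTail S E ∧
      BecomesAt (pencilPoly B Q A g) p (MvPolynomial.rename i0.succAbove (nform S n k E)) ∧
      ∃ (r : ℕ) (v : Fin r → Fin (m + 2) → ℕ), 1 ≤ r ∧
        LinearIndependent ℚ (fun j => (fun i => (v j i : ℚ) : Fin (m + 2) → ℚ)) ∧
        sparse v (fun _ => 1) = MvPolynomial.rename i0.succAbove (nform S n k E) := by
  classical
  set F := pencilPoly B Q A g with hFdef
  have hR := Rl_chart i0 p F hF hpi
  have hdeh := deh_pencil B i0 c hy hc0 hc1 Q A g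
  rw [← hFdef] at hdeh
  -- the dehomogenised polynomial is not zero
  have h0 : deh i0 F ≠ 0 := by
    intro h
    have h1 : rename i0.succAbove ((translate (chartPt i0 p) (deh i0 F) :
        MvPolynomial (Fin (m + 1)) ℂ) : MvPowerSeries (Fin (m + 1)) ℂ) = 0 := by
      rw [h]
      unfold Pool.Agent.Zk22.QB.translate
      rw [map_zero, MvPolynomial.coe_zero, map_zero]
    obtain ⟨φ, hφ, hφ0, h2⟩ := hR.ne_zero h1
    have h3 := subst_inj hφ hφ0 h2
    exact translate_ne hF0 (MvPolynomial.coe_injective (Fin (m + 2)) ℂ (by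
      rw [h3, MvPolynomial.coe_zero]))
  -- it vanishes at the point of the chart
  have hv : MvPolynomial.eval (chartPt i0 p) (deh i0 F) = 0 := by
    obtain ⟨φ, u, hφ, hφ0, hu, e⟩ := hR
    have h1 := congrArg constantCoeff e
    rw [const_subst hφ0, map_mul, constantCoeff_rename, ← coeff_zero_eq_constantCoeff_apply,
      MvPolynomial.coeff_coe, ← MvPolynomial.constantCoeff_eq, translate_const, hp,
      ← coeff_zero_eq_constantCoeff_apply, ← coeff_zero_eq_constantCoeff_apply,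
      MvPolynomial.coeff_coe, ← MvPolynomial.constantCoeff_eq, translate_const] at h1
    have h2 : constantCoeff u ≠ 0 := (hu.map _).ne_zero
    rw [coeff_zero_eq_constantCoeff_apply] at h1
    exact (mul_eq_zero.1 h1.symm).resolve_left h2
  rw [hdeh] at h0 hv
  have hQ0 : ∀ d ∈ (deh i0 Q).support, ∑ i : Fin m, d i.succ ≤ 2 ∧
      ∀ i, i ∉ B → d i.succ = 0 := by
    intro d hd
    obtain ⟨e, he, h1⟩ := deh_support i0 Q d hd
    obtain ⟨h2, h3⟩ := hQ e he
    refine ⟨?_, fun i hi => ?_⟩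
    · refine le_trans (le_of_eq ?_) h2
      refine Finset.sum_congr rfl fun i _ => ?_
      rw [h1, hy]
    · rw [h1, hy]
      exact h3 i hi
  obtain ⟨S, n, k, E, hk, hE, hne, hG⟩ := becomes_comb B (deh i0 Q) _ g hQ0 h0 _ hv
  refine ⟨S, n, k, E, hk, hE, ?_, ?_⟩
  · rw [becomesAt_iff, ← rename_coe]
    refine hR.trans (Rl_ext i0 ?_)
    rw [hdeh]
    exact becomesAt_iff.1 hG
  · obtain ⟨r, v, hr, hli, hsp⟩ := exists_exp S n k hk E hE hne
    refine ⟨r, fun j => Fin.insertNth i0 0 (v j), hr, ?_, ?_⟩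
    · rw [Fintype.linearIndependent_iff] at hli ⊢
      intro c' hc'
      refine hli c' ?_
      funext l
      have h1 := congrFun hc' (i0.succAbove l)
      rw [Finset.sum_apply] at h1 ⊢
      simp only [Pi.smul_apply, Fin.insertNth_apply_succAbove] at h1 ⊢
      exact h1
    · rw [← hsp]
      unfold sparse
      rw [map_sum]
      refine Finset.sum_congr rfl fun j _ => ?_
      rw [map_mul, map_prod, MvPolynomial.rename_C, Fin.prod_univ_succAbove _ i0]
      simp only [Fin.insertNth_apply_same, pow_zero, one_mul, Fin.insertNth_apply_succAbove,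
        map_pow, MvPolynomial.rename_X]

/-- the weights: `x₀` and `x₁` have weight one, the other variables weight zero -/
def wx (m : ℕ) : Fin (m + 2) → ℕ := Fin.cons 1 (Fin.cons 1 0)

lemma weight_wx (d : Fin (m + 2) →₀ ℕ) : Finsupp.weight (wx m) d = d 0 + d 1 := by
  rw [Finsupp.weight_apply, Finsupp.sum_fintype _ _ (fun i => by simp), Fin.sum_univ_succ,
    Fin.sum_univ_succ]
  unfold wx
  simp

lemma wh_aeval (i : Fin (m + 2)) (hi : wx m i = 0) (g : Polynomial ℂ) :
    MvPolynomial.IsWeightedHomogeneous (wx m)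
      (Polynomial.aeval (MvPolynomial.X i) g : MvPolynomial (Fin (m + 2)) ℂ) 0 := by
  rw [Polynomial.aeval_eq_sum_range]
  refine MvPolynomial.IsWeightedHomogeneous.sum _ _ _ fun k _ => ?_
  rw [MvPolynomial.smul_eq_C_mul]
  refine MvPolynomial.IsWeightedHomogeneous.C_mul ?_ _
  have h := (MvPolynomial.isWeightedHomogeneous_X ℂ (wx m) i).pow k
  rwa [hi, smul_zero] at h

lemma wh_form {K : ℕ} (A : MvPolynomial (Fin 2) ℂ) (hA : A.IsHomogeneous K) :
    MvPolynomial.IsWeightedHomogeneous (wx m)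
      (MvPolynomial.aeval ![MvPolynomial.X 0, MvPolynomial.X 1] A :
        MvPolynomial (Fin (m + 2)) ℂ) K := by
  rw [MvPolynomial.aeval_def, MvPolynomial.eval₂_eq']
  refine MvPolynomial.IsWeightedHomogeneous.sum _ _ _ fun e he => ?_
  refine MvPolynomial.IsWeightedHomogeneous.C_mul ?_ _
  have h1 : e 0 + e 1 = K := by
    have h2 := hA (MvPolynomial.mem_support_iff.1 he)
    rw [Finsupp.weight_apply, Finsupp.sum_fintype _ _ (fun i => by simp), Fin.sum_univ_two] at h2
    simpa using h2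
  rw [Fin.prod_univ_two]
  have h3 := ((MvPolynomial.isWeightedHomogeneous_X ℂ (wx m) 0).pow (e 0)).mul
    ((MvPolynomial.isWeightedHomogeneous_X ℂ (wx m) 1).pow (e 1))
  have h4 : e 0 • wx m 0 + e 1 • wx m 1 = K := by
    have e0 : wx m 0 = 1 := rfl
    have e1 : wx m 1 = 1 := rfl
    rw [e0, e1, smul_eq_mul, smul_eq_mul, mul_one, mul_one, h1]
  rw [h4] at h3
  exact h3

/-- **Normal forms of the germs off the axis.** -/
theorem becomes_pencil {K : ℕ} (Q : MvPolynomial (Fin (m + 2)) ℂ)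
    (A : Fin m → MvPolynomial (Fin 2) ℂ) (g : Fin m → Polynomial ℂ)
    (hQ : ∀ d ∈ Q.support, d 0 + d 1 = K ∧ ∑ i : Fin m, d i.succ.succ ≤ 2 ∧
      ∀ i, i ∉ B → d i.succ.succ = 0)
    (hA : ∀ j, (A j).IsHomogeneous K)
    (hF0 : pencilPoly B Q A g ≠ 0) (p : Fin (m + 2) → ℂ) (hpi : p 0 ≠ 0 ∨ p 1 ≠ 0)
    (hp : MvPolynomial.eval p (pencilPoly B Q A g) = 0) :
    ∃ (S : Finset (Fin m)) (n k : Fin m → ℕ) (E : MvPolynomial (Fin (m + 1)) ℂ)
      (e : Fin (m + 1) → Fin (m + 2)), (∀ i, k i ≠ 0) ∧ IsTail S E ∧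
      (e = Fin.succAbove 0 ∨ e = Fin.succAbove 1) ∧
      BecomesAt (pencilPoly B Q A g) p (MvPolynomial.rename e (nform S n k E)) ∧
      ∃ (r : ℕ) (v : Fin r → Fin (m + 2) → ℕ), 1 ≤ r ∧
        LinearIndependent ℚ (fun j => (fun i => (v j i : ℚ) : Fin (m + 2) → ℚ)) ∧
        sparse v (fun _ => 1) = MvPolynomial.rename e (nform S n k E) := by
  classical
  have hF : ∀ d ∈ (pencilPoly B Q A g).support, d 0 + d 1 = K := by
    have h1 : MvPolynomial.IsWeightedHomogeneous (wx m) (pencilPoly B Q A g) K := by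
      unfold pencilPoly
      refine MvPolynomial.IsWeightedHomogeneous.add ?_ ?_
      · intro d hd
        rw [weight_wx]
        exact (hQ d (MvPolynomial.mem_support_iff.2 hd)).1
      · refine MvPolynomial.IsWeightedHomogeneous.sum _ _ _ fun j _ => ?_
        have h2 := (wh_form (A j) (hA j)).mul (wh_aeval (m := m) j.succ.succ rfl (g j))
        rwa [add_zero] at h2
    intro d hd
    rw [← weight_wx]
    exact h1 (MvPolynomial.mem_support_iff.1 hd)
  rcases hpi with hpi | hpi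
  · obtain ⟨S, n, k, E, h⟩ := becomes_pencil_aux B (0 : Fin (m + 2)) ![1, Polynomial.X]
      (fun l => by rw [Fin.succAbove_zero]) (by rw [deh_X_same]; simp)
      (by
        have h := deh_X (0 : Fin (m + 2)) 0
        rw [Fin.succAbove_zero] at h
        simpa using h) Q A g (K := K) (fun d hd => by
          rw [Fin.succAbove_zero]
          exact hF d hd) (fun d hd => (hQ d hd).2) hF0 p hpi hp
    exact ⟨S, n, k, E, _, h.1, h.2.1, Or.inl rfl, h.2.2⟩
  · have h10 : (1 : Fin (m + 2)).succAbove 0 = 0 := by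
      rfl
    obtain ⟨S, n, k, E, h⟩ := becomes_pencil_aux B (1 : Fin (m + 2)) ![Polynomial.X, 1]
      (fun l => by
        have := Fin.succ_succAbove_succ (0 : Fin (m + 1)) l
        rw [Fin.succAbove_zero] at this
        exact this)
      (by
        have h := deh_X (1 : Fin (m + 2)) 0
        rw [h10] at h
        simpa using h) (by rw [deh_X_same]; simp) Q A g (K := K) (fun d hd => by
          rw [h10, add_comm]
          exact hF d hd) (fun d hd => (hQ d hd).2) hF0 p hpi hp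
    exact ⟨S, n, k, E, _, h.1, h.2.1, Or.inr rfl, h.2.2⟩

open Polynomial in
/-- **The global zeta functions with a further candidate pole.** -/
theorem global_zeta_line {N : ℕ} (f : MvPolynomial (Fin N) ℂ) {b : ℂ[X]} (hb : IsBFunction f b)
    (W : ℂ[X]) (hW : W ≠ 0)
    {ι : Type} [Fintype ι] (p : ι → Fin N → ℂ) (r : ι → ℕ) (hr : ∀ t, 1 ≤ r t)
    (v : ∀ t, Fin (r t) → Fin N → ℕ)
    (hv : ∀ t, LinearIndependent ℚ (fun j => (fun i => (v t j i : ℚ) : Fin N → ℚ)))
    (hG : ∀ t, BecomesAt f (p t) (sparse (v t) fun _ => 1)) (R : ι → SmoothFan N)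
    (hR : ∀ t, Principal (v t) (R t)) (χ₀ χ₁ : ℤ) (χ χ' : ι → ℤ) :
    ∃ P : ℂ[X], algebraMap ℂ[X] (RatFunc ℂ) (b * W) *
      (((χ₀ : RatFunc ℂ) + ∑ t, (χ t : RatFunc ℂ) * topZetaSparseLocal (v t) (R t)) +
      (algebraMap ℂ[X] (RatFunc ℂ) W)⁻¹ *
        ((χ₁ : RatFunc ℂ) + ∑ t, (χ' t : RatFunc ℂ) * topZetaSparseLocal (v t) (R t))) =
      algebraMap ℂ[X] (RatFunc ℂ) P := by
  obtain ⟨P1, h1⟩ := global_zeta f hb p r hr v hv hG R hR χ₀ χ
  obtain ⟨P2, h2⟩ := global_zeta f hb p r hr v hv hG R hR χ₁ χ'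
  have hW' : algebraMap ℂ[X] (RatFunc ℂ) W ≠ 0 := by
    intro h
    exact hW ((FaithfulSMul.algebraMap_injective ℂ[X] (RatFunc ℂ)) (by rw [h, map_zero]))
  refine ⟨W * P1 + P2, ?_⟩
  rw [map_add, map_mul, map_mul, ← h1, ← h2]
  field_simp

end Pool.Agent.Zk22.QC
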