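import Pool.Agent.Zk22.QC.QuadB
import Pool.Agent.Zk22.QB.Poly

set_option autoImplicit false
set_option linter.unusedSectionVars false
set_option linter.unusedVariables false

/-! # Germs of quadratic polynomials plus separated terms over the line -/

namespace Pool.Agent.Zk22.QC

open MvPowerSeries
open Pool.Agent.Zk22.QB
open Pool.Agent.Y229.GL (IsCoord)

variable {m : ℕ} (B : Finset (Fin m))

theorem translate_DB (p : Fin (m + 1) → ℂ) (f : MvPolynomial (Fin (m + 1)) ℂ)
    (hf : ∀ d ∈ f.support, ∑ i : Fin m, d i.succ ≤ 2 ∧ ∀ i, i ∉ B → d i.succ = 0) :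
    ((translate p f : MvPolynomial (Fin (m + 1)) ℂ) : MvPowerSeries (Fin (m + 1)) ℂ) ∈ DB B 2 := by
  unfold Pool.Agent.Zk22.QB.translate
  rw [← coe_aeval, MvPolynomial.aeval_def, MvPolynomial.eval₂_eq']
  refine AddSubgroup.sum_mem _ fun d hd => ?_
  have h1 : (algebraMap ℂ (MvPowerSeries (Fin (m + 1)) ℂ)) (MvPolynomial.coeff d f) ∈ DB B 0 :=
    DB_C B _
  have h2 : ∏ i, (((MvPolynomial.C (p i) + MvPolynomial.X i : MvPolynomial (Fin (m + 1)) ℂ) :
      MvPowerSeries (Fin (m + 1)) ℂ)) ^ d i ∈ DB B (0 + ∑ i : Fin m, d i.succ) := by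
    rw [Fin.prod_univ_succ]
    refine DB_mul B ?_ ?_
    · have h3 : (((MvPolynomial.C (p 0) + MvPolynomial.X 0 : MvPolynomial (Fin (m + 1)) ℂ) :
          MvPowerSeries (Fin (m + 1)) ℂ)) ∈ DB B 0 := by
        rw [MvPolynomial.coe_add, MvPolynomial.coe_C, MvPolynomial.coe_X]
        refine AddSubgroup.add_mem _ (DB_C B _) ?_
        rw [← io_X]
        exact DB_io B _
      have h4 := DB_pow B h3 (d 0)
      rwa [mul_zero] at h4
    · refine DB_prod B _ _ _ fun i _ => ?_
      by_cases hi : i ∈ B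
      · have h3 : (((MvPolynomial.C (p i.succ) + MvPolynomial.X i.succ :
            MvPolynomial (Fin (m + 1)) ℂ) : MvPowerSeries (Fin (m + 1)) ℂ)) ∈ DB B 1 := by
          rw [MvPolynomial.coe_add, MvPolynomial.coe_C, MvPolynomial.coe_X]
          exact AddSubgroup.add_mem _ (DB_mono B (Nat.zero_le 1) (DB_C B _)) (DB_Y B i hi)
        have h4 := DB_pow B h3 (d i.succ)
        rwa [mul_one] at h4
      · rw [(hf d hd).2 i hi, pow_zero]
        have h5 := DB_io B 1
        rwa [map_one] at h5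
  have h3 := DB_mul B h1 h2
  exact DB_mono B (by have := (hf d hd).1; omega) h3

/-- the polynomial `Q(x, y) + ∑_j a_j(x) g_j(y_j)`, the sum over the `j` outside `B` -/
noncomputable def combPoly (Q : MvPolynomial (Fin (m + 1)) ℂ) (a g : Fin m → Polynomial ℂ) :
    MvPolynomial (Fin (m + 1)) ℂ :=
  Q + ∑ j ∈ Bᶜ, Polynomial.aeval (MvPolynomial.X 0) (a j) *
    Polynomial.aeval (MvPolynomial.X j.succ) (g j)

lemma translate_aeval (p : Fin (m + 1) → ℂ) (i : Fin (m + 1)) (g : Polynomial ℂ) :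
    ((translate p (Polynomial.aeval (MvPolynomial.X i) g) : MvPolynomial (Fin (m + 1)) ℂ) :
      MvPowerSeries (Fin (m + 1)) ℂ) = Polynomial.aeval (C (p i) + X i) g := by
  unfold Pool.Agent.Zk22.QB.translate
  rw [← Polynomial.aeval_algHom_apply, MvPolynomial.aeval_X]
  have h := Polynomial.aeval_algHom_apply
    (MvPolynomial.coeToMvPowerSeries.algHom ℂ (σ := Fin (m + 1)) (R := ℂ))
    (MvPolynomial.C (p i) + MvPolynomial.X i : MvPolynomial (Fin (m + 1)) ℂ) g
  simp only [MvPolynomial.coeToMvPowerSeries.algHom_apply, Algebra.algebraMap_self,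
    MvPowerSeries.map_id, RingHom.id_apply, MvPolynomial.coe_add, MvPolynomial.coe_C,
    MvPolynomial.coe_X] at h
  exact h.symm

lemma io_aeval (c : ℂ) (g : Polynomial ℂ) :
    (io (Polynomial.aeval (PowerSeries.C c + PowerSeries.X) g : PowerSeries ℂ) :
      MvPowerSeries (Fin (m + 1)) ℂ) = Polynomial.aeval (C c + X 0) g := by
  rw [← Polynomial.aeval_algHom_apply, map_add, io_X]
  congr 3
  exact (io (m := m)).commutes c

lemma translate_comb (Q : MvPolynomial (Fin (m + 1)) ℂ) (a g : Fin m → Polynomial ℂ)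
    (p : Fin (m + 1) → ℂ) :
    ((translate p (combPoly B Q a g) : MvPolynomial (Fin (m + 1)) ℂ) :
      MvPowerSeries (Fin (m + 1)) ℂ) =
    ((translate p Q : MvPolynomial (Fin (m + 1)) ℂ) : MvPowerSeries (Fin (m + 1)) ℂ) +
      sepT B (fun j => Polynomial.aeval (PowerSeries.C (p 0) + PowerSeries.X) (a j)) g
        (fun j => p j.succ) := by
  have h1 : translate p (combPoly B Q a g) = translate p Q + ∑ j ∈ Bᶜ,
      translate p (Polynomial.aeval (MvPolynomial.X 0) (a j)) *
      translate p (Polynomial.aeval (MvPolynomial.X j.succ) (g j)) := by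
    unfold combPoly Pool.Agent.Zk22.QB.translate
    rw [map_add, map_sum]
    congr 1
    exact Finset.sum_congr rfl fun j _ => map_mul _ _ _
  rw [h1, MvPolynomial.coe_add]
  congr 1
  have h := map_sum (MvPolynomial.coeToMvPowerSeries.ringHom (σ := Fin (m + 1)) (R := ℂ))
    (fun j => translate p (Polynomial.aeval (MvPolynomial.X 0) (a j)) *
      translate p (Polynomial.aeval (MvPolynomial.X j.succ) (g j))) Bᶜ
  refine h.trans (Finset.sum_congr rfl fun j _ => ?_)
  rw [map_mul]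
  simp only [MvPolynomial.coeToMvPowerSeries.ringHom_apply]
  rw [translate_aeval, translate_aeval, io_aeval]

/-- **Normal forms of the germs.** -/
theorem becomes_comb (Q : MvPolynomial (Fin (m + 1)) ℂ) (a g : Fin m → Polynomial ℂ)
    (hQ : ∀ d ∈ Q.support, ∑ i : Fin m, d i.succ ≤ 2 ∧ ∀ i, i ∉ B → d i.succ = 0)
    (hf0 : combPoly B Q a g ≠ 0) (p : Fin (m + 1) → ℂ)
    (hp : MvPolynomial.eval p (combPoly B Q a g) = 0) :
    ∃ (S : Finset (Fin m)) (n k : Fin m → ℕ) (E : MvPolynomial (Fin (m + 1)) ℂ),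
      (∀ i, k i ≠ 0) ∧ IsTail S E ∧ (S.Nonempty ∨ E ≠ 0) ∧
      BecomesAt (combPoly B Q a g) p (nform S n k E) := by
  have h0 : constantCoeff ((translate p (combPoly B Q a g) : MvPolynomial (Fin (m + 1)) ℂ) :
      MvPowerSeries (Fin (m + 1)) ℂ) = 0 := by
    rw [← coeff_zero_eq_constantCoeff_apply, MvPolynomial.coeff_coe,
      ← MvPolynomial.constantCoeff_eq, translate_const, hp]
  rw [translate_comb] at h0
  obtain ⟨S, n, k, E, hk, hE, h1⟩ := comb_nf B (translate_DB B p Q hQ) _ g _ h0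
  have h2 : Rl ((translate p (combPoly B Q a g) : MvPolynomial (Fin (m + 1)) ℂ) :
      MvPowerSeries (Fin (m + 1)) ℂ) (nform S n k E : MvPowerSeries (Fin (m + 1)) ℂ) := by
    rw [translate_comb]
    exact h1
  refine ⟨S, n, k, E, hk, hE, ?_, h2⟩
  by_contra hcon
  push Not at hcon
  obtain ⟨h3, h4⟩ := hcon
  have h5 : ((nform S n k E : MvPolynomial (Fin (m + 1)) ℂ) :
      MvPowerSeries (Fin (m + 1)) ℂ) = 0 := by
    rw [nform_coe, h4, h3, Finset.sum_empty, MvPolynomial.coe_zero, add_zero]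
  obtain ⟨φ, hφ, hφ0, h6⟩ := h2.ne_zero h5
  have h7 := subst_inj hφ hφ0 h6
  exact translate_ne hf0 (MvPolynomial.coe_injective (Fin (m + 1)) ℂ (by
    rw [h7, MvPolynomial.coe_zero]))

end Pool.Agent.Zk22.QC
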