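import Pool.Agent.Zk22.QC.Sep

set_option autoImplicit false
set_option linter.unusedSectionVars false
set_option linter.unusedVariables false

/-! # Quadratic polynomials in some of the variables plus separated terms -/

namespace Pool.Agent.Zk22.QC

open MvPowerSeries
open Pool.Agent.Zk22.QB
open Pool.Agent.Y229.GL (IsCoord)

variable {m : ℕ} (B : Finset (Fin m))

/-- the separated terms -/
noncomputable def sepT (α : Fin m → PowerSeries ℂ) (h : Fin m → Polynomial ℂ) (c : Fin m → ℂ) :
    MvPowerSeries (Fin (m + 1)) ℂ :=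
  ∑ j ∈ Bᶜ, io (α j) * Polynomial.aeval (C (c j) + Y j) (h j)

lemma sepT_fix {α : Fin m → PowerSeries ℂ} {h : Fin m → Polynomial ℂ} {c : Fin m → ℂ}
    (Φ : MvPowerSeries (Fin (m + 1)) ℂ →ₐ[ℂ] MvPowerSeries (Fin (m + 1)) ℂ)
    (h1 : ∀ a, Φ (io a) = io a) (h2 : ∀ j, j ∉ B → Φ (Y j) = Y j) :
    Φ (sepT B α h c) = sepT B α h c := by
  unfold sepT
  rw [map_sum]
  refine Finset.sum_congr rfl fun j hj => ?_
  have hC : Φ (C (c j)) = C (c j) := Φ.commutes (c j)
  rw [map_mul, h1, ← Polynomial.aeval_algHom_apply, map_add, h2 j (Finset.mem_compl.1 hj), hC]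

/-- diagonalisation of the quadratic part -/
theorem stepTB (A : Matrix (Fin m) (Fin m) (PowerSeries ℂ)) (hA : A.IsSymm)
    (hAB : ∀ i, i ∉ B → ∀ l, A i l = 0)
    (b : Fin m → PowerSeries ℂ) (hb : ∀ i, i ∉ B → b i = 0) (c : PowerSeries ℂ)
    (W : MvPowerSeries (Fin (m + 1)) ℂ)
    (hW : ∀ Φ : MvPowerSeries (Fin (m + 1)) ℂ →ₐ[ℂ] MvPowerSeries (Fin (m + 1)) ℂ,
      (∀ a, Φ (io a) = io a) → (∀ j, j ∉ B → Φ (Y j) = Y j) → Φ W = W) :
    ∃ a b' : Fin m → PowerSeries ℂ, (∀ i, i ∉ B → a i = 0) ∧ (∀ i, i ∉ B → b' i = 0) ∧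
      Rl (io c + ∑ i, io (b i) * Y i + ∑ i, ∑ l, io (A i l) * Y i * Y l + W)
        (io c + ∑ i, (io (a i) * Y i ^ 2 + io (b' i) * Y i) + W :
          MvPowerSeries (Fin (m + 1)) ℂ) := by
  classical
  obtain ⟨P, a, hP, hdiag, hP1, hP2, haB⟩ := diagB B A hA hAB
  set ψ : Fin m → MvPowerSeries (Fin (m + 1)) ℂ := fun i => ∑ j, io (P i j) * Y j with hψ
  have hψB : ∀ i, i ∉ B → ψ i = Y i := by
    intro i hi
    rw [hψ]
    simp only
    rw [Finset.sum_eq_single i]
    · rw [hP1 i hi, if_pos rfl, map_one, one_mul]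
    · intro j _ hj
      rw [hP1 i hi, if_neg (Ne.symm hj), map_zero, zero_mul]
    · exact fun h => absurd (Finset.mem_univ _) h
  have h0 : ∀ i, constantCoeff (ψ i) = 0 := by
    intro i
    rw [hψ]
    simp only
    rw [map_sum]
    exact Finset.sum_eq_zero fun j _ => by rw [map_mul, constantCoeff_X, mul_zero]
  have hlin : ∀ i j, lin j.succ (ψ i) = PowerSeries.constantCoeff (P i j) := by
    intro i j
    rw [hψ]
    simp only
    rw [lin_sum, Finset.sum_eq_single j]
    · rw [lin_mul, constantCoeff_X, zero_mul, add_zero, const_io, lin_X, if_pos rfl, mul_one]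
    · intro k _ hk
      rw [lin_mul, constantCoeff_X, zero_mul, add_zero, lin_X, if_neg, mul_zero]
      exact fun h => hk (Fin.succ_injective _ h)
    · exact fun h => absurd (Finset.mem_univ _) h
  have hcoord : IsCoord (mk ψ) := by
    rw [isCoord_iff, Matrix.det_succ_row_zero, Finset.sum_eq_single 0]
    · have e1 : ((Matrix.of fun i j => lin j (mk ψ i)).submatrix Fin.succ (Fin.succAbove 0)) =
          (PowerSeries.constantCoeff (R := ℂ)).mapMatrix P := by
        ext i j
        rw [Matrix.submatrix_apply, Matrix.of_apply, Fin.succAbove_zero, RingHom.mapMatrix_apply,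
          Matrix.map_apply, ← hlin i j]
        rfl
      rw [e1, ← RingHom.map_det]
      have e2 : (Matrix.of fun i j => lin j (mk ψ i)) 0 0 = 1 := by
        rw [Matrix.of_apply]
        change lin 0 (X 0) = 1
        rw [lin_X, if_pos rfl]
      rw [e2]
      have h5 := isUnit_iff.1 hP
      simpa using h5
    · intro j _ hj
      have e2 : (Matrix.of fun i j => lin j (mk ψ i)) 0 j = 0 := by
        rw [Matrix.of_apply]
        change lin j (X 0) = 0
        rw [lin_X, if_neg (Ne.symm hj)]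
      rw [e2]
      ring
    · exact fun h => absurd (Finset.mem_univ _) h
  obtain ⟨Φ, h1, h2, h3⟩ := coord_hom ψ h0 hcoord
  refine ⟨a, fun j => ∑ i, b i * P i j, haB, ?_, h3 _ _ 1 isUnit_one ?_⟩
  · intro j hj
    simp only
    rw [Finset.sum_eq_single j]
    · rw [hb j hj, zero_mul]
    · intro i _ hi
      rw [hP2 j hj, if_neg hi, mul_zero]
    · exact fun h => absurd (Finset.mem_univ _) h
  rw [one_mul, map_add, map_add, map_add, map_sum, map_sum, h1,
    hW Φ h1 (fun j hj => by rw [h2, hψB j hj])]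
  congr 1
  have e1 : ∑ i, Φ (io (b i) * Y i) = ∑ j, io (∑ i, b i * P i j) * Y j := by
    have : ∀ j, io (∑ i, b i * P i j) * Y j = ∑ i, (io (b i) * io (P i j) * Y j :
        MvPowerSeries (Fin (m + 1)) ℂ) := by
      intro j
      rw [map_sum, Finset.sum_mul]
      exact Finset.sum_congr rfl fun i _ => by rw [map_mul]
    rw [Finset.sum_congr rfl fun j _ => this j, Finset.sum_comm]
    refine Finset.sum_congr rfl fun i _ => ?_
    rw [map_mul, h1, h2, hψ]
    simp only
    rw [Finset.mul_sum]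
    exact Finset.sum_congr rfl fun j _ => by ring
  have e2 : ∑ i, Φ (∑ l, io (A i l) * Y i * Y l) = ∑ j, (io (a j) * Y j ^ 2 :
      MvPowerSeries (Fin (m + 1)) ℂ) := by
    have s1 : ∀ i, Φ (∑ l, io (A i l) * Y i * Y l) = ∑ l, ∑ j, ∑ k,
        (io (P i j * A i l * P l k) * (Y j * Y k) : MvPowerSeries (Fin (m + 1)) ℂ) := by
      intro i
      rw [map_sum]
      refine Finset.sum_congr rfl fun l _ => ?_
      rw [map_mul, map_mul, h1, h2, h2, hψ]
      simp only
      rw [mul_assoc, Finset.sum_mul_sum, Finset.mul_sum]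
      refine Finset.sum_congr rfl fun j _ => ?_
      rw [Finset.mul_sum]
      refine Finset.sum_congr rfl fun k _ => ?_
      rw [map_mul, map_mul]
      ring
    rw [Finset.sum_congr rfl fun i _ => s1 i]
    -- reorder the sums
    have s2 : ∑ i, ∑ l, ∑ j, ∑ k,
        (io (P i j * A i l * P l k) * (Y j * Y k) : MvPowerSeries (Fin (m + 1)) ℂ) =
        ∑ j, ∑ k, io (∑ i, ∑ l, P i j * A i l * P l k) * (Y j * Y k) := by
      have r1 : ∀ j k, (io (∑ i, ∑ l, P i j * A i l * P l k) * (Y j * Y k) :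
          MvPowerSeries (Fin (m + 1)) ℂ) = ∑ i, ∑ l, io (P i j * A i l * P l k) * (Y j * Y k) := by
        intro j k
        rw [map_sum, Finset.sum_mul]
        refine Finset.sum_congr rfl fun i _ => ?_
        rw [map_sum, Finset.sum_mul]
      rw [Finset.sum_congr rfl fun j _ => Finset.sum_congr rfl fun k _ => r1 j k]
      calc _ = ∑ i, ∑ j, ∑ l, ∑ k,
            (io (P i j * A i l * P l k) * (Y j * Y k) : MvPowerSeries (Fin (m + 1)) ℂ) :=
            Finset.sum_congr rfl fun i _ => Finset.sum_comm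
        _ = ∑ j, ∑ i, ∑ l, ∑ k,
            (io (P i j * A i l * P l k) * (Y j * Y k) : MvPowerSeries (Fin (m + 1)) ℂ) :=
            Finset.sum_comm
        _ = ∑ j, ∑ i, ∑ k, ∑ l,
            (io (P i j * A i l * P l k) * (Y j * Y k) : MvPowerSeries (Fin (m + 1)) ℂ) :=
            Finset.sum_congr rfl fun j _ => Finset.sum_congr rfl fun i _ => Finset.sum_comm
        _ = _ := Finset.sum_congr rfl fun j _ => Finset.sum_comm
    rw [s2]
    refine Finset.sum_congr rfl fun j _ => ?_
    rw [Finset.sum_eq_single j]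
    · rw [hdiag, if_pos rfl]
      ring
    · intro k _ hk
      rw [hdiag, if_neg (Ne.symm hk), map_zero, zero_mul]
    · exact fun h => absurd (Finset.mem_univ _) h
  rw [e1, e2, Finset.sum_add_distrib]
  ring

/-- completing the squares, and coordinates for the separated terms -/
theorem stepAZ (a b : Fin m → PowerSeries ℂ) (ha : ∀ i, i ∉ B → a i = 0)
    (hb : ∀ i, i ∉ B → b i = 0) (c : PowerSeries ℂ)
    (α : Fin m → PowerSeries ℂ) (h : Fin m → Polynomial ℂ) (e : Fin m → ℂ)
    (hc : PowerSeries.constantCoeff (c + ∑ j ∈ Bᶜ, α j * PowerSeries.C ((h j).eval (e j))) = 0) :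
    ∃ (S L : Finset (Fin m)) (k : Fin m → ℕ) (a' b' : Fin m → PowerSeries ℂ) (c' : PowerSeries ℂ),
      Disjoint S L ∧ (∀ i, k i ≠ 0) ∧ (∀ i ∈ S, a' i ≠ 0) ∧
      (∀ i ∈ L, b' i ≠ 0) ∧ PowerSeries.constantCoeff c' = 0 ∧
      Rl (io c + ∑ i, (io (a i) * Y i ^ 2 + io (b i) * Y i) + sepT B α h e)
        (io c' + ∑ i ∈ S, io (a' i) * Y i ^ k i + ∑ i ∈ L, io (b' i) * Y i :
          MvPowerSeries (Fin (m + 1)) ℂ) := by
  classical
  -- the variables outside `B`
  have hκ : ∀ j : Fin m, ∃ (κ : ℕ) (w : MvPowerSeries (Fin (m + 1)) ℂ), 1 ≤ κ ∧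
      constantCoeff w ≠ 0 ∧ ((h j).natDegree ≠ 0 →
        Polynomial.aeval (C (e j) + Y j * w) (h j) = C ((h j).eval (e j)) + Y j ^ κ) := by
    intro j
    by_cases hj : (h j).natDegree = 0
    · exact ⟨1, 1, le_rfl, by rw [map_one]; exact one_ne_zero, fun h1 => absurd hj h1⟩
    · obtain ⟨κ, w, h1, h2, h3⟩ := exists_coord (m := m) (h j) (e j) hj j
      exact ⟨κ, w, h1, h2, fun _ => h3⟩
  choose κ w hκ1 hw0 hw1 using hκ
  set S1 : Finset (Fin m) := Finset.univ.filter fun i => i ∈ B ∧ a i ≠ 0 ∧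
    ∃ s, PowerSeries.constantCoeff s = 0 ∧ b i = 2 * a i * s with hS1
  set L1 : Finset (Fin m) := Finset.univ.filter fun i => i ∉ S1 ∧ b i ≠ 0 with hL1
  set S2 : Finset (Fin m) := Finset.univ.filter fun i => i ∉ B ∧ α i ≠ 0 ∧
    (h i).natDegree ≠ 0 with hS2
  have hS1B : ∀ i ∈ S1, i ∈ B := fun i hi => (Finset.mem_filter.1 hi).2.1
  have hL1B : ∀ i ∈ L1, i ∈ B := by
    intro i hi
    by_contra hiB
    exact (Finset.mem_filter.1 hi).2.2 (hb i hiB)
  have hs : ∀ i, ∃ s : PowerSeries ℂ, PowerSeries.constantCoeff s = 0 ∧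
      (i ∈ S1 → b i = 2 * a i * s) := by
    intro i
    by_cases hi : i ∈ S1
    · obtain ⟨s, h1, h2⟩ := (Finset.mem_filter.1 hi).2.2.2
      exact ⟨s, h1, fun _ => h2⟩
    · exact ⟨0, map_zero _, fun h => absurd h hi⟩
  choose s hs0 hs1 using hs
  have hr : ∀ i, ∃ r : PowerSeries ℂ, i ∉ S1 → a i = b i * r := by
    intro i
    by_cases hi : i ∈ S1
    · exact ⟨0, fun h => absurd hi h⟩
    · by_cases ha0 : a i = 0
      · exact ⟨0, fun _ => by rw [ha0, mul_zero]⟩
      · have hiB : i ∈ B := by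
          by_contra hiB
          exact ha0 (ha i hiB)
        have hno : ¬ ∃ s, PowerSeries.constantCoeff s = 0 ∧ b i = 2 * a i * s := fun h =>
          hi (Finset.mem_filter.2 ⟨Finset.mem_univ _, hiB, ha0, h⟩)
        have h2u : IsUnit (2 : PowerSeries ℂ) := by
          rw [isUnit_iff, map_ofNat]
          exact two_ne_zero
        have key : b i ∣ 2 * a i := by
          rcases dvd_total' (b i) (2 * a i) with h | ⟨t, h⟩
          · exact h
          · have h2 : PowerSeries.constantCoeff t ≠ 0 := fun h3 => hno ⟨t, h3, h⟩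
            rw [h]
            exact ((isUnit_iff.2 h2).mul_right_dvd).2 dvd_rfl
        obtain ⟨r, hr⟩ := (h2u.dvd_mul_left).1 key
        exact ⟨r, fun _ => hr⟩
  choose r hr using hr
  have hq : ∀ i, ∃ q : MvPowerSeries (Fin (m + 1)) ℂ,
    constantCoeff q ≠ 0 ∧ q + io (r i) * q ^ 2 * Y i = 1 := fun i => exists_q (r i) i
  choose q hq0 hq1 using hq
  set ψ : Fin m → MvPowerSeries (Fin (m + 1)) ℂ := fun i => if i ∈ B then
    (if i ∈ S1 then Y i - io (s i) else Y i * q i) else Y i * w i with hψ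
  have hψS : ∀ i ∈ S1, ψ i = Y i - io (s i) := fun i hi => by
    rw [hψ]; simp only [if_pos hi, if_pos (hS1B i hi)]
  have hψL : ∀ i, i ∈ B → i ∉ S1 → ψ i = Y i * q i := fun i hi hi' => by
    rw [hψ]; simp only [if_pos hi, if_neg hi']
  have hψN : ∀ i, i ∉ B → ψ i = Y i * w i := fun i hi => by
    rw [hψ]; simp only [if_neg hi]
  have h0 : ∀ i, constantCoeff (ψ i) = 0 := by
    intro i
    by_cases hiB : i ∈ B
    · by_cases hi : i ∈ S1
      · rw [hψS i hi, map_sub, constantCoeff_X, const_io, hs0, sub_zero]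
      · rw [hψL i hiB hi, map_mul, constantCoeff_X, zero_mul]
    · rw [hψN i hiB, map_mul, constantCoeff_X, zero_mul]
  have hlin : ∀ i j, lin j.succ (ψ i) = (if i ∈ B then (if i ∈ S1 then 1 else
      constantCoeff (q i)) else constantCoeff (w i)) * (if i = j then 1 else 0) := by
    intro i j
    by_cases hiB : i ∈ B
    · by_cases hi : i ∈ S1
      · rw [hψS i hi, if_pos hiB, if_pos hi, lin_sub, lin_X, lin_io, sub_zero, one_mul]
        simp only [Fin.succ_inj]
      · rw [hψL i hiB hi, if_pos hiB, if_neg hi, lin_mul, constantCoeff_X, zero_mul, zero_add, lin_X]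
        congr 1
        simp only [Fin.succ_inj]
    · rw [hψN i hiB, if_neg hiB, lin_mul, constantCoeff_X, zero_mul, zero_add, lin_X]
      congr 1
      simp only [Fin.succ_inj]
  have hcoord : IsCoord (mk ψ) := by
    refine mk_coord (fun _ => 0) (fun i => ?_) (fun i j hij _ => ?_)
    · rw [hlin, if_pos rfl, mul_one]
      split_ifs
      · exact one_ne_zero
      · exact hq0 i
      · exact hw0 i
    · rw [hlin, if_neg hij, mul_zero]
  obtain ⟨Φ, h1, h2, h3⟩ := coord_hom ψ h0 hcoord
  set c1 : PowerSeries ℂ := c + ∑ j ∈ Bᶜ, α j * PowerSeries.C ((h j).eval (e j)) with hc1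
  -- linear terms outside `B`
  set S3 : Finset (Fin m) := S2.filter fun i => 2 ≤ κ i with hS3
  set L3 : Finset (Fin m) := S2.filter fun i => ¬ 2 ≤ κ i with hL3
  have hS2B : ∀ i ∈ S2, i ∉ B := fun i hi => (Finset.mem_filter.1 hi).2.1
  refine ⟨S1 ∪ S3, L1 ∪ L3, fun i => if i ∈ B then 2 else κ i, fun i => if i ∈ B then a i else α i,
    fun i => if i ∈ B then b i else α i, c1 - ∑ i ∈ S1, a i * s i ^ 2, ?_, ?_, ?_, ?_, ?_,
    h3 _ _ 1 isUnit_one ?_⟩
  · rw [Finset.disjoint_union_left, Finset.disjoint_union_right, Finset.disjoint_union_right]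
    refine ⟨⟨?_, ?_⟩, ?_, ?_⟩
    · rw [Finset.disjoint_left]
      exact fun i h4 h5 => (Finset.mem_filter.1 h5).2.1 h4
    · rw [Finset.disjoint_left]
      exact fun i h4 h5 => hS2B i (Finset.mem_filter.1 h5).1 (hS1B i h4)
    · rw [Finset.disjoint_left]
      exact fun i h4 h5 => hS2B i (Finset.mem_filter.1 h4).1 (hL1B i h5)
    · exact Finset.disjoint_filter_filter_not _ _ _
  · intro i
    simp only
    split_ifs
    · exact two_ne_zero
    · have := hκ1 i
      omega
  · intro i hi
    simp only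
    rcases Finset.mem_union.1 hi with hi | hi
    · rw [if_pos (hS1B i hi)]
      exact (Finset.mem_filter.1 hi).2.2.1
    · have h4 := (Finset.mem_filter.1 hi).1
      rw [if_neg (hS2B i h4)]
      exact (Finset.mem_filter.1 h4).2.2.1
  · intro i hi
    simp only
    rcases Finset.mem_union.1 hi with hi | hi
    · rw [if_pos (hL1B i hi)]
      exact (Finset.mem_filter.1 hi).2.2
    · have h4 := (Finset.mem_filter.1 hi).1
      rw [if_neg (hS2B i h4)]
      exact (Finset.mem_filter.1 h4).2.2.1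
  · rw [map_sub, hc, map_sum, Finset.sum_eq_zero (fun i _ => by
      rw [map_mul, map_pow, hs0, zero_pow two_ne_zero, mul_zero]), sub_zero]
  · rw [one_mul, map_add, map_add, map_sum, h1]
    have hterm : ∀ i, Φ (io (a i) * Y i ^ 2 + io (b i) * Y i) =
        (if i ∈ S1 then io (a i) * Y i ^ 2 - io (a i * s i ^ 2) else 0) +
          (if i ∈ L1 then io (b i) * Y i else 0) := by
      intro i
      rw [map_add, map_mul, map_mul, map_pow, h1, h1, h2]
      by_cases hi : i ∈ S1
      · have hi2 : i ∉ L1 := fun h => (Finset.mem_filter.1 h).2.1 hi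
        rw [if_pos hi, if_neg hi2, add_zero, hψS i hi, hs1 i hi]
        simp only [map_mul, map_pow, map_ofNat]
        ring
      · rw [if_neg hi, zero_add]
        by_cases hiB : i ∈ B
        · rw [hψL i hiB hi]
          have e1 : io (a i) * (Y i * q i) ^ 2 + io (b i) * (Y i * q i) =
              (io (b i) * Y i : MvPowerSeries (Fin (m + 1)) ℂ) := by
            rw [hr i hi, map_mul]
            linear_combination (io (b i) * Y i) * hq1 i
          rw [e1]
          split_ifs with hi2
          · rfl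
          · have hb0 : b i = 0 := by
              by_contra hb
              exact hi2 (Finset.mem_filter.2 ⟨Finset.mem_univ _, hi, hb⟩)
            rw [hb0, map_zero, zero_mul]
        · rw [ha i hiB, hb i hiB, map_zero, zero_mul, zero_mul, add_zero,
            if_neg (fun h => hiB (hL1B i h))]
    have hsep : Φ (sepT B α h e) = io (∑ j ∈ Bᶜ, α j * PowerSeries.C ((h j).eval (e j))) +
        (∑ i ∈ S3, io (α i) * Y i ^ κ i + ∑ i ∈ L3, io (α i) * Y i) := by
      have t1 : ∀ j, j ∉ B → Φ (io (α j) * Polynomial.aeval (C (e j) + Y j) (h j)) =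
          io (α j * PowerSeries.C ((h j).eval (e j))) +
            if j ∈ S2 then io (α j) * Y j ^ κ j else 0 := by
        intro j hj
        have hC : (io (PowerSeries.C ((h j).eval (e j))) : MvPowerSeries (Fin (m + 1)) ℂ) =
            C ((h j).eval (e j)) := (io (m := m)).commutes _
        rw [map_mul, h1, ← Polynomial.aeval_algHom_apply, map_add, h2, hψN j hj]
        have hC2 : Φ (C (e j)) = C (e j) := Φ.commutes (e j)
        rw [hC2, map_mul, hC]
        by_cases hj2 : (h j).natDegree = 0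
        · have hjS : j ∉ S2 := fun h4 => (Finset.mem_filter.1 h4).2.2.2 hj2
          rw [if_neg hjS, add_zero]
          congr 1
          rw [Polynomial.eq_C_of_natDegree_eq_zero hj2, Polynomial.aeval_C, Polynomial.eval_C]
          rfl
        · rw [hw1 j hj2]
          by_cases hα : α j = 0
          · have hjS : j ∉ S2 := fun h4 => (Finset.mem_filter.1 h4).2.2.1 hα
            rw [if_neg hjS, hα, map_zero, zero_mul, zero_mul, add_zero]
          · rw [if_pos (Finset.mem_filter.2 ⟨Finset.mem_univ _, hj, hα, hj2⟩)]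
            ring
      unfold sepT
      rw [map_sum, Finset.sum_congr rfl fun j hj => t1 j (Finset.mem_compl.1 hj),
        Finset.sum_add_distrib, map_sum]
      congr 1
      rw [Finset.sum_ite_mem]
      have t2 : Bᶜ ∩ S2 = S2 := by
        rw [Finset.inter_eq_right]
        exact fun i hi => Finset.mem_compl.2 (hS2B i hi)
      rw [t2, ← Finset.sum_filter_add_sum_filter_not S2 (fun i => 2 ≤ κ i)]
      congr 1
      refine Finset.sum_congr rfl fun i hi => ?_
      have h4 := (Finset.mem_filter.1 hi).2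
      have h5 : κ i = 1 := by
        have := hκ1 i
        omega
      rw [h5, pow_one]
    rw [Finset.sum_congr rfl fun i _ => hterm i, Finset.sum_add_distrib, Finset.sum_ite_mem,
      Finset.sum_ite_mem, Finset.univ_inter, Finset.univ_inter, Finset.sum_sub_distrib, hsep]
    have hd1 : Disjoint S1 S3 := by
      rw [Finset.disjoint_left]
      exact fun i h4 h5 => hS2B i (Finset.mem_filter.1 h5).1 (hS1B i h4)
    have hd2 : Disjoint L1 L3 := by
      rw [Finset.disjoint_left]
      exact fun i h4 h5 => hS2B i (Finset.mem_filter.1 h5).1 (hL1B i h4)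
    rw [Finset.sum_union hd1, Finset.sum_union hd2]
    have g1 : ∑ i ∈ S1, io (if i ∈ B then a i else α i) * Y i ^ (if i ∈ B then 2 else κ i) =
        (∑ i ∈ S1, io (a i) * Y i ^ 2 : MvPowerSeries (Fin (m + 1)) ℂ) :=
      Finset.sum_congr rfl fun i hi => by rw [if_pos (hS1B i hi), if_pos (hS1B i hi)]
    have g2 : ∑ i ∈ S3, io (if i ∈ B then a i else α i) * Y i ^ (if i ∈ B then 2 else κ i) =
        (∑ i ∈ S3, io (α i) * Y i ^ κ i : MvPowerSeries (Fin (m + 1)) ℂ) :=
      Finset.sum_congr rfl fun i hi => by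
        have h4 := hS2B i (Finset.mem_filter.1 hi).1
        rw [if_neg h4, if_neg h4]
    have g3 : ∑ i ∈ L1, io (if i ∈ B then b i else α i) * Y i =
        (∑ i ∈ L1, io (b i) * Y i : MvPowerSeries (Fin (m + 1)) ℂ) :=
      Finset.sum_congr rfl fun i hi => by rw [if_pos (hL1B i hi)]
    have g4 : ∑ i ∈ L3, io (if i ∈ B then b i else α i) * Y i =
        (∑ i ∈ L3, io (α i) * Y i : MvPowerSeries (Fin (m + 1)) ℂ) :=
      Finset.sum_congr rfl fun i hi => by
        have h4 := hS2B i (Finset.mem_filter.1 hi).1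
        rw [if_neg h4]
    simp only at g1 g2 g3 g4 ⊢
    rw [g1, g2, g3, g4, hc1, map_sub, map_add, map_sum, map_sum]
    ring

/-! ### Polynomials -/

/-- sums of the `a(x) y_i y_j ⋯` with at most `k` factors `y_i`, `i ∈ B` -/
def GB (k : ℕ) : Set (MvPowerSeries (Fin (m + 1)) ℂ) :=
  {g | ∃ (a : PowerSeries ℂ) (l : List (Fin m)), l.length ≤ k ∧ (∀ i ∈ l, i ∈ B) ∧
    g = io a * (l.map Y).prod}

/-- power series of degree at most `k` in the `y_i`, `i ∈ B` -/
def DB (k : ℕ) : AddSubgroup (MvPowerSeries (Fin (m + 1)) ℂ) := AddSubgroup.closure (GB B k)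

lemma DB_mul {j k : ℕ} {g h : MvPowerSeries (Fin (m + 1)) ℂ} (hg : g ∈ DB B j) (hh : h ∈ DB B k) :
    g * h ∈ DB B (j + k) := by
  unfold DB at *
  induction hg using AddSubgroup.closure_induction with
  | mem g hg =>
    induction hh using AddSubgroup.closure_induction with
    | mem h hh =>
      obtain ⟨a, l, hl, hlB, rfl⟩ := hg
      obtain ⟨a', l', hl', hlB', rfl⟩ := hh
      refine AddSubgroup.subset_closure ⟨a * a', l ++ l', by rw [List.length_append]; omega, ?_, ?_⟩
      · intro i hi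
        rcases List.mem_append.1 hi with h | h
        · exact hlB i h
        · exact hlB' i h
      · rw [map_mul, List.map_append, List.prod_append]
        ring
    | zero => rw [mul_zero]; exact AddSubgroup.zero_mem _
    | add x y _ _ h1 h2 => rw [mul_add]; exact AddSubgroup.add_mem _ h1 h2
    | neg x _ h1 => rw [mul_neg]; exact AddSubgroup.neg_mem _ h1
  | zero => rw [zero_mul]; exact AddSubgroup.zero_mem _
  | add x y _ _ h1 h2 => rw [add_mul]; exact AddSubgroup.add_mem _ h1 h2
  | neg x _ h1 => rw [neg_mul]; exact AddSubgroup.neg_mem _ h1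

lemma DB_mono {j k : ℕ} (h : j ≤ k) : DB B j ≤ DB B k := by
  unfold DB
  refine AddSubgroup.closure_mono ?_
  rintro g ⟨a, l, hl, hlB, rfl⟩
  exact ⟨a, l, hl.trans h, hlB, rfl⟩

lemma DB_io (a : PowerSeries ℂ) : (io a : MvPowerSeries (Fin (m + 1)) ℂ) ∈ DB B 0 :=
  AddSubgroup.subset_closure ⟨a, [], le_rfl, by simp, by simp⟩

lemma DB_C (a : ℂ) : (C a : MvPowerSeries (Fin (m + 1)) ℂ) ∈ DB B 0 := by
  have h := DB_io B (PowerSeries.C a)
  have h2 : (io (PowerSeries.C a) : MvPowerSeries (Fin (m + 1)) ℂ) = C a :=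
    (io (m := m)).commutes a
  rwa [h2] at h

lemma DB_Y (i : Fin m) (hi : i ∈ B) : (Y i : MvPowerSeries (Fin (m + 1)) ℂ) ∈ DB B 1 :=
  AddSubgroup.subset_closure ⟨1, [i], le_rfl, by simpa using hi, by simp⟩

lemma DB_pow {j : ℕ} {g : MvPowerSeries (Fin (m + 1)) ℂ} (hg : g ∈ DB B j) (e : ℕ) :
    g ^ e ∈ DB B (e * j) := by
  induction e with
  | zero =>
    have h := DB_io B 1
    rw [map_one] at h
    rw [pow_zero, zero_mul]
    exact h
  | succ e ih =>
    rw [pow_succ, Nat.succ_mul]
    exact DB_mul B ih hg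

lemma DB_prod {ι : Type} (s : Finset ι) (e : ι → ℕ) (g : ι → MvPowerSeries (Fin (m + 1)) ℂ)
    (h : ∀ i ∈ s, g i ∈ DB B (e i)) : ∏ i ∈ s, g i ∈ DB B (∑ i ∈ s, e i) := by
  classical
  induction s using Finset.induction_on with
  | empty =>
    have h := DB_io B 1
    rw [map_one] at h
    rw [Finset.prod_empty, Finset.sum_empty]
    exact h
  | insert i s hi ih =>
    rw [Finset.prod_insert hi, Finset.sum_insert hi]
    exact DB_mul B (h i (Finset.mem_insert_self i s))
      (ih fun j hj => h j (Finset.mem_insert_of_mem hj))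

/-- the explicit form -/
lemma DB_two {g : MvPowerSeries (Fin (m + 1)) ℂ} (hg : g ∈ DB B 2) :
    ∃ (c : PowerSeries ℂ) (b : Fin m → PowerSeries ℂ) (A : Matrix (Fin m) (Fin m) (PowerSeries ℂ)),
      A.IsSymm ∧ (∀ i, i ∉ B → b i = 0) ∧ (∀ i, i ∉ B → ∀ l, A i l = 0) ∧
      g = io c + ∑ i, io (b i) * Y i + ∑ i, ∑ l, io (A i l) * Y i * Y l := by
  classical
  have key : ∃ (c : PowerSeries ℂ) (b : Fin m → PowerSeries ℂ)
      (A : Matrix (Fin m) (Fin m) (PowerSeries ℂ)), (∀ i, i ∉ B → b i = 0) ∧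
      (∀ i l, (i ∉ B ∨ l ∉ B) → A i l = 0) ∧
      g = io c + ∑ i, io (b i) * Y i + ∑ i, ∑ l, io (A i l) * Y i * Y l := by
    unfold DB at hg
    induction hg using AddSubgroup.closure_induction with
    | mem g hg =>
      obtain ⟨a, l, hl, hlB, rfl⟩ := hg
      match l, hl with
      | [], _ =>
        refine ⟨a, 0, 0, fun _ _ => rfl, fun _ _ _ => rfl, ?_⟩
        simp
      | [i], _ =>
        have hiB : i ∈ B := hlB i (by simp)
        refine ⟨0, Pi.single i a, 0, fun j hj => ?_, fun _ _ _ => rfl, ?_⟩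
        · rw [Pi.single_eq_of_ne]
          rintro rfl
          exact hj hiB
        rw [Finset.sum_eq_single i]
        · simp
        · intro j _ hj
          rw [Pi.single_eq_of_ne hj, map_zero, zero_mul]
        · exact fun h => absurd (Finset.mem_univ _) h
      | [i, j], _ =>
        have hiB : i ∈ B := hlB i (by simp)
        have hjB : j ∈ B := hlB j (by simp)
        have e1 : ∑ i', ∑ l, (io (Matrix.single i j a i' l) * Y i' * Y l :
            MvPowerSeries (Fin (m + 1)) ℂ) = io a * Y i * Y j := by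
          rw [Finset.sum_eq_single i, Finset.sum_eq_single j, Matrix.single_apply_same]
          · intro j' _ hj'
            rw [Matrix.single_apply_of_col_ne _ _ (Ne.symm hj'), map_zero, zero_mul, zero_mul]
          · exact fun h => absurd (Finset.mem_univ _) h
          · intro i' _ hi'
            refine Finset.sum_eq_zero fun l _ => ?_
            rw [Matrix.single_apply_of_row_ne (Ne.symm hi'), map_zero, zero_mul, zero_mul]
          · exact fun h => absurd (Finset.mem_univ _) h
        refine ⟨0, 0, Matrix.single i j a, fun _ _ => rfl, ?_, ?_⟩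
        · rintro i' l' (h | h)
          · rw [Matrix.single_apply_of_row_ne]
            rintro rfl
            exact h hiB
          · rw [Matrix.single_apply_of_col_ne]
            rintro rfl
            exact h hjB
        rw [e1]
        simp only [List.map_cons, List.map_nil, List.prod_cons, List.prod_nil, map_zero,
          Pi.zero_apply, zero_mul, Finset.sum_const_zero]
        ring
      | _ :: _ :: _ :: _, hl =>
        simp at hl
    | zero => exact ⟨0, 0, 0, fun _ _ => rfl, fun _ _ _ => rfl, by simp⟩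
    | add x y _ _ h1 h2 =>
      obtain ⟨c, b, A, hb, hA, h1⟩ := h1
      obtain ⟨c', b', A', hb', hA', h2⟩ := h2
      refine ⟨c + c', b + b', A + A', fun i hi => ?_, fun i l h => ?_, ?_⟩
      · rw [Pi.add_apply, hb i hi, hb' i hi, add_zero]
      · rw [Matrix.add_apply, hA i l h, hA' i l h, add_zero]
      rw [h1, h2]
      simp only [Pi.add_apply, Matrix.add_apply, map_add, add_mul, Finset.sum_add_distrib]
      ring
    | neg x _ h1 =>
      obtain ⟨c, b, A, hb, hA, h1⟩ := h1
      refine ⟨-c, -b, -A, fun i hi => ?_, fun i l h => ?_, ?_⟩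
      · rw [Pi.neg_apply, hb i hi, neg_zero]
      · rw [Matrix.neg_apply, hA i l h, neg_zero]
      rw [h1]
      simp only [Pi.neg_apply, Matrix.neg_apply, map_neg, neg_mul, Finset.sum_neg_distrib]
      abel
  obtain ⟨c, b, A, hb, hA, h⟩ := key
  refine ⟨c, b, fun i l => PowerSeries.C (1 / 2) * (A i l + A l i), ?_, hb, ?_, ?_⟩
  · refine Matrix.IsSymm.ext fun i l => ?_
    change PowerSeries.C (1 / 2) * (A l i + A i l) = PowerSeries.C (1 / 2) * (A i l + A l i)
    rw [add_comm (A l i)]
  · intro i hi l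
    change PowerSeries.C (1 / 2) * (A i l + A l i) = 0
    rw [hA i l (Or.inl hi), hA l i (Or.inr hi), add_zero, mul_zero]
  · rw [h]
    congr 1
    have e1 : ∑ i, ∑ l, (io (A l i) * Y i * Y l : MvPowerSeries (Fin (m + 1)) ℂ) =
        ∑ i, ∑ l, io (A i l) * Y i * Y l := by
      rw [Finset.sum_comm]
      exact Finset.sum_congr rfl fun i _ => Finset.sum_congr rfl fun l _ => by ring
    have e2 : ∀ i l, (io (PowerSeries.C (1 / 2) * (A i l + A l i)) * Y i * Y l :
        MvPowerSeries (Fin (m + 1)) ℂ) = C (1 / 2) * (io (A i l) * Y i * Y l) +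
          C (1 / 2) * (io (A l i) * Y i * Y l) := by
      intro i l
      have h2 : (io (PowerSeries.C (1 / 2 : ℂ)) : MvPowerSeries (Fin (m + 1)) ℂ) = C (1 / 2) :=
        (io (m := m)).commutes _
      rw [map_mul, map_add, h2]
      ring
    simp only [e2, Finset.sum_add_distrib, ← Finset.mul_sum, e1]
    rw [← add_mul, ← map_add]
    norm_num

/-- **The normal form.** -/
theorem comb_nf {g : MvPowerSeries (Fin (m + 1)) ℂ} (hg : g ∈ DB B 2)
    (α : Fin m → PowerSeries ℂ) (h : Fin m → Polynomial ℂ) (e : Fin m → ℂ)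
    (h0 : constantCoeff (g + sepT B α h e) = 0) :
    ∃ (S : Finset (Fin m)) (n k : Fin m → ℕ) (E : MvPolynomial (Fin (m + 1)) ℂ),
      (∀ i, k i ≠ 0) ∧ IsTail S E ∧
      Rl (g + sepT B α h e) (nform S n k E : MvPowerSeries (Fin (m + 1)) ℂ) := by
  obtain ⟨c, b, A, hA, hb, hAB, rfl⟩ := DB_two B hg
  obtain ⟨a, b', ha, hb', h1⟩ := stepTB B A hA hAB b hb c (sepT B α h e)
    (fun Φ h1 h2 => sepT_fix B Φ h1 h2)
  have hc : PowerSeries.constantCoeff (c + ∑ j ∈ Bᶜ, α j * PowerSeries.C ((h j).eval (e j))) = 0 := by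
    rw [map_add, map_add, map_add, const_io, map_sum, map_sum, Finset.sum_eq_zero (fun i _ => by
      rw [map_mul, constantCoeff_X, mul_zero]), Finset.sum_eq_zero (fun i _ => by
      rw [map_sum]; exact Finset.sum_eq_zero fun l _ => by rw [map_mul, constantCoeff_X, mul_zero]),
      add_zero, add_zero] at h0
    rw [map_add, map_sum, ← h0]
    congr 1
    unfold sepT
    rw [map_sum]
    refine Finset.sum_congr rfl fun j _ => ?_
    rw [map_mul, map_mul, const_io, PowerSeries.constantCoeff_C]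
    congr 1
    have h2 : constantCoeff (Polynomial.aeval (C (e j) + Y j : MvPowerSeries (Fin (m + 1)) ℂ) (h j)) =
        Polynomial.eval₂ ((constantCoeff (σ := Fin (m + 1)) (R := ℂ)).comp
          (algebraMap ℂ (MvPowerSeries (Fin (m + 1)) ℂ)))
          (constantCoeff (C (e j) + Y j : MvPowerSeries (Fin (m + 1)) ℂ)) (h j) := by
      rw [Polynomial.aeval_def, Polynomial.hom_eval₂]
    rw [h2, map_add, constantCoeff_C, constantCoeff_X, add_zero]
    have h3 : (constantCoeff (σ := Fin (m + 1)) (R := ℂ)).comp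
          (algebraMap ℂ (MvPowerSeries (Fin (m + 1)) ℂ)) = RingHom.id ℂ := by
      ext x
      · change constantCoeff (C x : MvPowerSeries (Fin (m + 1)) ℂ) = x
        exact constantCoeff_C x
    rw [h3, Polynomial.eval₂_id]
  obtain ⟨S, L, k, a', b'', c', hSL, hk, ha', hb'', hc', h2⟩ := stepAZ B a b' ha hb' c α h e hc
  obtain ⟨n, E, hE, h3⟩ := nf k hk S L hSL a' b'' c' ha' hb'' hc'
  exact ⟨S, n, k, E, hk, hE, h1.trans (h2.trans h3)⟩

end Pool.Agent.Zk22.QC
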