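import Pool.Agent.Zk22.QB.Quad
import Pool.Agent.Zk22.QC.Block

set_option autoImplicit false
set_option linter.unusedSectionVars false
set_option linter.unusedVariables false

/-! # One-variable polynomials in suitable coordinates -/

namespace Pool.Agent.Zk22.QC

open MvPowerSeries
open Pool.Agent.Zk22.QB
open Pool.Agent.Y229.GL (IsCoord)

variable {m : ℕ}

/-- the equation `w ^ k u(Y w) = 1` has a solution -/
theorem exists_w (u : Polynomial ℂ) (hu : u.coeff 0 ≠ 0) (k : ℕ) (hk : 1 ≤ k) (i : Fin m) :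
    ∃ w : MvPowerSeries (Fin (m + 1)) ℂ, constantCoeff w ≠ 0 ∧
      w ^ k * Polynomial.aeval (Y i * w) u = 1 := by
  classical
  set R := MvPowerSeries (Fin (m + 1)) ℂ with hR
  set I : Ideal R := Ideal.span (Set.range X) with hI
  have hYI : (Y i : R) ∈ I := Ideal.subset_span ⟨i.succ, rfl⟩
  set e := u.natDegree with he
  set q : Polynomial R := ∑ j ∈ Finset.range (e + 1),
    Polynomial.C (C (u.coeff j) * Y i ^ j : R) * Polynomial.X ^ (e - j) with hq
  set p : Polynomial R := Polynomial.X ^ (k - 1 + e + 1) - q with hp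
  have hqd : q.degree ≤ ((k - 1 + e : ℕ) : WithBot ℕ) := by
    rw [hq]
    refine (Polynomial.degree_sum_le _ _).trans (Finset.sup_le fun j _ => ?_)
    refine (Polynomial.degree_C_mul_X_pow_le _ _).trans ?_
    exact_mod_cast (show e - j ≤ k - 1 + e by omega)
  have hmon : p.Monic := Polynomial.monic_X_pow_sub (lt_of_le_of_lt hqd (by exact_mod_cast Nat.lt_succ_self _))
  obtain ⟨v0, hv0⟩ := IsAlgClosed.exists_pow_nat_eq (u.coeff 0) (Nat.pos_of_ne_zero (by omega : k ≠ 0))
  have hv0' : v0 ≠ 0 := by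
    rintro rfl
    rw [zero_pow (by omega)] at hv0
    exact hu hv0.symm
  have hke : k - 1 + e + 1 = k + e := by omega
  have hqe : ∀ v : R, q.eval v = ∑ j ∈ Finset.range (e + 1), C (u.coeff j) * Y i ^ j * v ^ (e - j) := by
    intro v
    rw [hq, Polynomial.eval_finsetSum]
    refine Finset.sum_congr rfl fun j _ => ?_
    rw [Polynomial.eval_mul, Polynomial.eval_C, Polynomial.eval_pow, Polynomial.eval_X]
  have hpe : ∀ v : R, p.eval v = v ^ (k + e) - ∑ j ∈ Finset.range (e + 1),
      C (u.coeff j) * Y i ^ j * v ^ (e - j) := by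
    intro v
    rw [hp, Polynomial.eval_sub, hqe, Polynomial.eval_pow, Polynomial.eval_X, hke]
  have hmap : p.map (constantCoeff (σ := Fin (m + 1)) (R := ℂ)) = Polynomial.X ^ (k + e) -
      Polynomial.C (u.coeff 0) * Polynomial.X ^ e := by
    rw [hp, hq, Polynomial.map_sub, Polynomial.map_pow, Polynomial.map_X, hke, Polynomial.map_sum,
      Finset.sum_range_succ']
    rw [Finset.sum_eq_zero]
    · simp
    · intro j _
      rw [Polynomial.map_mul, Polynomial.map_C, map_mul, map_pow, constantCoeff_X,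
        zero_pow (Nat.succ_ne_zero j), mul_zero, Polynomial.C_0, zero_mul]
  have h1 : p.eval (C v0 : R) ∈ I := by
    rw [hpe, Finset.sum_range_succ']
    have h2 : (C v0 : R) ^ (k + e) = C (u.coeff 0) * Y i ^ 0 * C v0 ^ (e - 0) := by
      rw [pow_add, ← map_pow, hv0, pow_zero, mul_one, Nat.sub_zero]
    rw [h2, sub_add_cancel_right]
    refine I.neg_mem (I.sum_mem fun j _ => ?_)
    refine I.mul_mem_right _ (I.mul_mem_left _ ?_)
    rw [pow_succ]
    exact I.mul_mem_left _ hYI
  have hder : constantCoeff (p.derivative.eval (C v0 : R)) ≠ 0 := by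
    have h3 : constantCoeff (p.derivative.eval (C v0 : R)) =
        ((p.map (constantCoeff (σ := Fin (m + 1)) (R := ℂ))).derivative).eval v0 := by
      rw [Polynomial.derivative_map, Polynomial.eval_map, ← Polynomial.eval₂_at_apply,
        constantCoeff_C]
    rw [h3, hmap]
    simp only [Polynomial.derivative_sub, Polynomial.derivative_X_pow, Polynomial.eval_sub,
      Polynomial.eval_mul, Polynomial.eval_pow, Polynomial.eval_X, Polynomial.derivative_mul,
      Polynomial.derivative_C, zero_mul, zero_add, Polynomial.eval_C]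
    rcases Nat.eq_zero_or_pos e with h0 | h0
    · rw [h0]
      simp only [add_zero, Nat.cast_zero, zero_mul, mul_zero, sub_zero]
      exact mul_ne_zero (by exact_mod_cast (by omega : k ≠ 0)) (pow_ne_zero _ hv0')
    · have h4 : ((k + e : ℕ) : ℂ) * v0 ^ (k + e - 1) - u.coeff 0 * ((e : ℂ) * v0 ^ (e - 1)) =
          (k : ℂ) * u.coeff 0 * v0 ^ (e - 1) := by
        have h5 : k + e - 1 = k + (e - 1) := by omega
        rw [h5, pow_add, hv0]
        push_cast
        ring
      rw [h4]
      exact mul_ne_zero (mul_ne_zero (by exact_mod_cast (by omega : k ≠ 0)) hu) (pow_ne_zero _ hv0')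
  obtain ⟨v, hv, hvI⟩ := (inferInstance : HenselianRing R I).is_henselian p hmon (C v0) h1
    ((isUnit_of_const hder).map (Ideal.Quotient.mk I))
  have hIc : ∀ f ∈ I, constantCoeff f = 0 := by
    intro f hf
    have h2 : I ≤ RingHom.ker (constantCoeff (σ := Fin (m + 1)) (R := ℂ)) := by
      rw [hI, Ideal.span_le]
      rintro _ ⟨j, rfl⟩
      exact constantCoeff_X j
    exact h2 hf
  have hvc : constantCoeff v = v0 := by
    have h2 := hIc _ hvI
    rw [map_sub, constantCoeff_C] at h2
    exact sub_eq_zero.1 h2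
  obtain ⟨w, hw⟩ := (isUnit_of_const (by rw [hvc]; exact hv0') : IsUnit v).exists_right_inv
  refine ⟨w, ?_, ?_⟩
  · intro h2
    have h3 := congrArg constantCoeff hw
    rw [map_mul, h2, mul_zero, map_one] at h3
    exact zero_ne_one h3
  · have h2 : v ^ (k + e) = ∑ j ∈ Finset.range (e + 1), C (u.coeff j) * Y i ^ j * v ^ (e - j) := by
      have h3 : p.eval v = 0 := hv
      rw [hpe] at h3
      exact sub_eq_zero.1 h3
    have h4 : w ^ (k + e) * v ^ (k + e) = 1 := by
      rw [← mul_pow, mul_comm w v, hw, one_pow]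
    rw [← h4, h2, Polynomial.aeval_eq_sum_range, Finset.mul_sum, Finset.mul_sum]
    refine Finset.sum_congr rfl fun j hj => ?_
    have hje : j ≤ e := by
      have := Finset.mem_range.1 hj
      omega
    have h5 : w ^ (k + e) = w ^ (k + j) * w ^ (e - j) := by
      rw [← pow_add]
      congr 1
      omega
    have h6 : w ^ (e - j) * v ^ (e - j) = 1 := by
      rw [← mul_pow, mul_comm w v, hw, one_pow]
    rw [h5, smul_eq_C_mul, mul_pow, pow_add]
    linear_combination (-(w ^ k * w ^ j * C (u.coeff j) * Y i ^ j)) * h6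

/-- A nonconstant polynomial at a point: `h(c + Y w) = h(c) + Y ^ k`. -/
theorem exists_coord (h : Polynomial ℂ) (c : ℂ) (hh : h.natDegree ≠ 0) (i : Fin m) :
    ∃ (k : ℕ) (w : MvPowerSeries (Fin (m + 1)) ℂ), 1 ≤ k ∧ constantCoeff w ≠ 0 ∧
      Polynomial.aeval (C c + Y i * w) h = C (h.eval c) + Y i ^ k := by
  classical
  set t : Polynomial ℂ := Polynomial.taylor c h - Polynomial.C (h.eval c) with ht
  have ht0 : t.coeff 0 = 0 := by
    rw [ht, Polynomial.coeff_sub, Polynomial.taylor_coeff_zero, Polynomial.coeff_C_zero, sub_self]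
  have htne : t ≠ 0 := by
    intro h0
    have h1 : Polynomial.taylor c h = Polynomial.C (h.eval c) := sub_eq_zero.1 h0
    have h2 := congrArg Polynomial.natDegree h1
    rw [Polynomial.natDegree_taylor, Polynomial.natDegree_C] at h2
    exact hh h2
  obtain ⟨u, hu, hu2⟩ := Polynomial.exists_eq_pow_rootMultiplicity_mul_and_not_dvd t htne 0
  set k := t.rootMultiplicity 0 with hk
  rw [Polynomial.C_0, sub_zero] at hu hu2
  have hu0 : u.coeff 0 ≠ 0 := by
    intro h0
    exact hu2 (Polynomial.X_dvd_iff.2 h0)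
  have hk1 : 1 ≤ k := by
    by_contra hc
    have h0 : k = 0 := by omega
    rw [h0, pow_zero, one_mul] at hu
    rw [hu] at ht0
    exact hu0 ht0
  obtain ⟨w, hw, hw2⟩ := exists_w (m := m) u hu0 k hk1 i
  refine ⟨k, w, hk1, hw, ?_⟩
  have h1 : Polynomial.aeval (C c + Y i * w) h =
      Polynomial.aeval (Y i * w : MvPowerSeries (Fin (m + 1)) ℂ) (Polynomial.taylor c h) := by
    rw [Polynomial.taylor_apply, Polynomial.aeval_comp, map_add, Polynomial.aeval_X,
      Polynomial.aeval_C, add_comm (Y i * w)]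
    rfl
  have h2 : Polynomial.taylor c h = Polynomial.C (h.eval c) + Polynomial.X ^ k * u := by
    rw [← hu, ht]
    ring
  rw [h1, h2, map_add, map_mul, map_pow, Polynomial.aeval_X, Polynomial.aeval_C]
  congr 1
  rw [mul_pow, mul_assoc, hw2, mul_one]

end Pool.Agent.Zk22.QC
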